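import Pool.Agent.Work.MP_ff0f6a_lc.Strat
import Pool.Agent.Lib.Cx.DfaPspace
import Pool.Agent.Lib.Cx.LogTM

-- merged part: Pool.Agent.Work.MP_ff0f6a_lc.PS.Cut
section
/-!
Chomp positions made of Nim heaps on an antidiagonal and an antichain of cells below the initial
and final segments of the row of heaps.
-/

namespace Pool.Agent.Chomp.PS

open Function

theorem card_bite_lt {S : Finset (ℕ × ℕ)} {c : ℕ × ℕ} (h : c ∈ S) : (bite S c).card < S.card :=
  Finset.card_lt_card ⟨Finset.filter_subset _ _, fun k => by simpa [bite] using k h⟩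

theorem not_both {S : Finset (ℕ × ℕ)} (h : Out true S) (h' : Out false S) : False := by
  induction hn : S.card using Nat.strong_induction_on generalizing S with
  | _ n ih =>
    cases h with
    | win _ c hc h1 =>
      cases h' with
      | lose _ h2 => exact ih _ (hn ▸ card_bite_lt hc) (h2 c hc) h1 rfl

/-- the Nim sum of the first `n` heaps -/
def xs (h : ℕ → ℕ) : ℕ → ℕ
  | 0 => 0
  | n + 1 => xs h n ^^^ h n

theorem xs_update (h : ℕ → ℕ) (p v n : ℕ) :
    xs (update h p v) n = xs h n ^^^ if p < n then h p ^^^ v else 0 := by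
  induction n with
  | zero => simp [xs]
  | succ n ih =>
    rw [xs, xs, ih]
    rcases lt_trichotomy p n with k | rfl | k
    · rw [if_pos k, if_pos (by omega), update_of_ne k.ne']; ac_rfl
    · simp [Nat.xor_assoc]
    · rw [if_neg (by omega), if_neg (by omega), update_of_ne k.ne]; simp

theorem xs_testBit (h : ℕ → ℕ) (i n : ℕ) (k : (xs h n).testBit i = true) :
    ∃ p < n, (h p).testBit i = true := by
  induction n with
  | zero => simp [xs] at k
  | succ n ih =>
    by_cases e : (h n).testBit i = true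
    · exact ⟨n, by omega, e⟩
    · obtain ⟨p, h1, h2⟩ := ih (by simpa [xs, e] using k)
      exact ⟨p, by omega, h2⟩

theorem nim (h : ℕ → ℕ) (n : ℕ) (k : xs h n ≠ 0) : ∃ p < n, h p ^^^ xs h n < h p := by
  obtain ⟨i, h1, h2⟩ := Nat.exists_most_significant_bit k
  obtain ⟨p, h3, h4⟩ := xs_testBit h i n h1
  exact ⟨p, h3, Nat.lt_of_testBit i (by simp [h1, h4]) h4 fun j hj => by simp [h2 j hj]⟩

theorem xs_left (h : ℕ → ℕ) (q n : ℕ) :
    xs (fun p => if p < q then 0 else h p) n = xs h n ^^^ xs h (min q n) := by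
  induction n with
  | zero => simp [xs]
  | succ n ih =>
    rw [xs, ih]
    rcases lt_or_ge n q with k | k
    · rw [if_pos k, min_eq_right k.le, min_eq_right k]; simp
    · rw [if_neg (by omega), min_eq_left k, min_eq_left (by omega), xs]; ac_rfl

theorem xs_right (h : ℕ → ℕ) (q n : ℕ) :
    xs (fun p => if q ≤ p then 0 else h p) n = xs h (min q n) := by
  induction n with
  | zero => simp [xs]
  | succ n ih =>
    rw [xs, ih]
    rcases lt_or_ge n q with k | k
    · rw [if_neg (by omega), min_eq_right k.le, min_eq_right k, xs]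
    · rw [if_pos k, min_eq_left k, min_eq_left (by omega)]; simp

/-- the lowest row of heap `p` -/
def Y (N H p : ℕ) : ℕ := N + (N - 1 - p) * H

/-- the row of the cutting cell in column `q` -/
def cy (N H q : ℕ) : ℕ := if q < N then Y N H (q - 1) else 2 * N - q

/-- the cells of the position with heaps `h` and cutting cells in the columns `A` -/
def Mem (N H : ℕ) (h : ℕ → ℕ) (A : ℕ → Prop) (c : ℕ × ℕ) : Prop :=
  (N ≤ c.1 ∧ c.1 < 2 * N ∧ Y N H (c.1 - N) ≤ c.2 ∧ c.2 < Y N H (c.1 - N) + h (c.1 - N)) ∨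
    (A c.1 ∧ c.2 = cy N H c.1)

/-- the heaps after the cutting cell in column `q` is played -/
def cut (N q : ℕ) (h : ℕ → ℕ) (p : ℕ) : ℕ :=
  if q < N then (if p < q then 0 else h p) else if q - N ≤ p then 0 else h p

/-- `S` is the position with heaps `h` and cutting cells `A` -/
structure Rel (N H : ℕ) (S : Finset (ℕ × ℕ)) (h : ℕ → ℕ) (A : Finset ℕ) : Prop where
  mem : ∀ c, c ∈ S ↔ Mem N H h (· ∈ A) c
  le : ∀ p < N, h p ≤ H
  sub : ∀ q ∈ A, 1 ≤ q ∧ q ≤ 2 * N ∧ q ≠ N
  pos : 0 < H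

variable {N H : ℕ} {S : Finset (ℕ × ℕ)} {h : ℕ → ℕ} {A : Finset ℕ}

theorem Y_tri (N H p p' : ℕ) (k : p < N) (k' : p' < N) :
    N ≤ Y N H p ∧ N ≤ Y N H p' ∧ (p < p' → Y N H p' + H ≤ Y N H p) ∧
      (p' < p → Y N H p + H ≤ Y N H p') ∧ (p = p' → Y N H p = Y N H p') := by
  have e : ∀ a b, a < b → b < N → Y N H b + H ≤ Y N H a := fun a b h1 h2 => by
    have := Nat.mul_le_mul_right H (show N - 1 - b + 1 ≤ N - 1 - a by omega)
    rw [Nat.add_one_mul] at this
    simp only [Y]; omega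
  exact ⟨Nat.le_add_right _ _, Nat.le_add_right _ _, fun a => e _ _ a k', fun a => e _ _ a k,
    fun a => by rw [a]⟩

theorem Rel.heap (R : Rel N H S h A) {p j : ℕ} (hp : p < N) (hj : j < h p) :
    (N + p, Y N H p + j) ∈ S ∧ Rel N H (bite S (N + p, Y N H p + j)) (update h p j) A := by
  refine ⟨(R.mem _).2 (.inl (by simp; omega)), fun ⟨x, y⟩ => ?_, fun p' k => ?_, R.sub, R.pos⟩
  · simp only [bite, Finset.mem_filter, R.mem, Mem, or_and_right]
    refine or_congr ?_ (and_iff_left_of_imp fun k => ?_)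
    · by_cases k : N ≤ x ∧ x < 2 * N
      · have := Y_tri N H p (x - N) hp (by omega)
        have := R.le (x - N) (by omega)
        by_cases e : x - N = p
        · rw [e, update_self]; omega
        · rw [update_of_ne e]; omega
      · omega
    · have := R.sub x k.1
      have := Y_tri N H p p hp hp
      simp only [cy] at k
      split_ifs at k <;> omega
  · have := R.le p hp
    have := R.le p' k
    by_cases e : p' = p
    · rw [e, update_self]; omega
    · rwa [update_of_ne e]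

theorem Rel.cutter (R : Rel N H S h A) {q : ℕ} (hq : q ∈ A) :
    (q, cy N H q) ∈ S ∧ Rel N H (bite S (q, cy N H q)) (cut N q h) (A.erase q) := by
  have hs := R.sub q hq
  have h0 := R.pos
  refine ⟨(R.mem _).2 (.inr ⟨hq, rfl⟩), fun ⟨x, y⟩ => ?_, fun p' k => ?_,
    fun q' k => R.sub q' (Finset.mem_of_mem_erase k), R.pos⟩
  · simp only [bite, Finset.mem_filter, R.mem, Mem, or_and_right, Finset.mem_erase]
    refine or_congr ?_ ?_
    · by_cases k : N ≤ x ∧ x < 2 * N
      · have := Y_tri N H (min (q - 1) (N - 1)) (x - N) (by omega) (by omega)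
        have := R.le (x - N) (by omega)
        simp only [cy, cut]
        split_ifs with k1
        · rw [min_eq_left (by omega)] at *; omega
        · rw [min_eq_left (by omega)] at *; omega
        · omega
        · omega
      · omega
    · by_cases k : x ∈ A
      · have := R.sub x k
        have := Y_tri N H (min (q - 1) (N - 1)) (min (x - 1) (N - 1)) (by omega) (by omega)
        simp only [cy, k, true_and, and_true]
        split_ifs with k1 k2
        · rw [min_eq_left (by omega), min_eq_left (by omega)] at this; omega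
        · omega
        · rw [min_eq_left (a := q - 1) (by omega)] at this; omega
        · omega
      · simp [k]
  · have := R.le p' k
    simp only [cut]
    split_ifs <;> omega

theorem Rel.cases (R : Rel N H S h A) {c : ℕ × ℕ} (hc : c ∈ S) :
    (∃ p < N, ∃ j < h p, c = (N + p, Y N H p + j)) ∨ ∃ q ∈ A, c = (q, cy N H q) := by
  rcases (R.mem c).1 hc with k | k
  · exact .inl ⟨c.1 - N, by omega, c.2 - Y N H (c.1 - N), by omega, Prod.ext (by simp; omega)
      (by simp; omega)⟩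
  · exact .inr ⟨c.1, k.1, Prod.ext rfl k.2⟩

theorem Rel.zero (R : Rel N H S h A) (hz : ∀ p < N, h p = 0) :
    (A.card % 2 = 1 → Out true S) ∧ (A.card % 2 = 0 → Out false S) := by
  induction hn : A.card generalizing S h A with
  | zero =>
    refine ⟨by omega, fun _ => .lose _ fun c hc => ?_⟩
    rcases R.cases hc with ⟨p, h1, j, h2, -⟩ | ⟨q, h1, -⟩
    · have := hz p h1; omega
    · simp [Finset.card_eq_zero.1 hn] at h1
  | succ n ih =>
    have key := fun q (hq : q ∈ A) => ih (R.cutter hq).2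
      (fun p k => by have := hz p k; simp only [cut]; split_ifs <;> omega)
      (by rw [Finset.card_erase_of_mem hq, hn]; rfl)
    refine ⟨fun k => ?_, fun k => .lose _ fun c hc => ?_⟩
    · obtain ⟨q, hq⟩ := Finset.card_pos.1 (show 0 < A.card by omega)
      exact .win _ _ (R.cutter hq).1 ((key q hq).2 (by omega))
    · rcases R.cases hc with ⟨p, h1, j, h2, -⟩ | ⟨q, h1, rfl⟩
      · have := hz p h1; omega
      · exact (key q h1).1 (by omega)

/-- every cut can be answered by removing all heaps -/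
def Good (N : ℕ) (h : ℕ → ℕ) (A : Finset ℕ) : Prop :=
  ∀ q ∈ A, (∀ p < N, cut N q h p = 0) ∨ ∃ q' ∈ A.erase q, ∀ p < N, cut N q' (cut N q h) p = 0

theorem Rel.even (R : Rel N H S h A) (hA : A.card % 2 = 0) (hG : Good N h A) :
    (xs h N = 0 → Out false S) ∧ (xs h N ≠ 0 → Out true S) := by
  induction hn : S.card using Nat.strong_induction_on generalizing S h with
  | _ n ih =>
    have key := fun p (hp : p < N) j (hj : j < h p) =>
      ih _ (hn ▸ card_bite_lt (R.heap hp hj).1) (R.heap hp hj).2 (fun q hq => by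
        have e : ∀ p', h p' = 0 → update h p j p' = 0 := fun p' k => by
          rwa [update_of_ne (by rintro rfl; omega)]
        refine (hG q hq).imp (fun k p' k' => ?_) fun ⟨q', k1, k⟩ => ⟨q', k1, fun p' k' => ?_⟩ <;>
        · have := k p' k'
          have := e p'
          simp only [cut] at *
          split_ifs at * <;> omega) rfl
    refine ⟨fun k => .lose _ fun c hc => ?_, fun k => ?_⟩
    · rcases R.cases hc with ⟨p, h1, j, h2, rfl⟩ | ⟨q, h1, rfl⟩
      · refine (key p h1 j h2).2 ?_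
        rw [xs_update, k, if_pos h1, Nat.zero_xor, Ne, Nat.xor_eq_zero_iff]
        omega
      · have c1 := Finset.card_erase_of_mem h1
        have c2 := Finset.card_pos.2 ⟨q, h1⟩
        rcases hG q h1 with k1 | ⟨q', k1, k2⟩
        · exact ((R.cutter h1).2.zero k1).1 (by omega)
        · have c3 := Finset.card_erase_of_mem k1
          have c4 := Finset.card_pos.2 ⟨q', k1⟩
          exact .win _ _ ((R.cutter h1).2.cutter k1).1
            ((((R.cutter h1).2.cutter k1).2.zero k2).2 (by omega))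
    · obtain ⟨p, h1, h2⟩ := nim h N k
      refine .win _ _ (R.heap h1 h2).1 ((key p h1 _ h2).1 ?_)
      rw [xs_update, if_pos h1]
      simp

/-- all cutting cells -/
def full (N : ℕ) : Finset ℕ := (Finset.Icc 1 (2 * N)).erase N

theorem mem_full {q : ℕ} : q ∈ full N ↔ q ≠ N ∧ 1 ≤ q ∧ q ≤ 2 * N := by simp [full]

theorem Rel.first (R : Rel N H S h (full N)) {q : ℕ} (hq : q ∈ full N) :
    ((if q < N then xs h N ^^^ xs h q else xs h (q - N)) = 0 → Out false (bite S (q, cy N H q))) ∧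
    ((if q < N then xs h N ^^^ xs h q else xs h (q - N)) ≠ 0 → Out true (bite S (q, cy N H q))) := by
  have h1 := mem_full.1 hq
  have e : xs (cut N q h) N = if q < N then xs h N ^^^ xs h q else xs h (q - N) := by
    unfold cut
    split_ifs with k
    · rw [xs_left, min_eq_left k.le]
    · rw [xs_right, min_eq_left (by omega)]
  rw [← e]
  refine (R.cutter hq).2.even ?_ fun q' hq' => ?_
  · rw [Finset.card_erase_of_mem hq, full, Finset.card_erase_of_mem (by simp; omega)]
    simp; omega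
  · simp only [Finset.mem_erase, mem_full] at hq' ⊢
    obtain ⟨z, hz⟩ : ∃ z, z = if q < N ∨ (q = 2 * N ∧ q' < N) then N + 1 else N - 1 := ⟨_, rfl⟩
    by_cases k : q' = z
    · refine .inl fun p hp => ?_
      simp only [cut]
      split_ifs at * <;> omega
    · refine .inr ⟨z, by split_ifs at hz <;> omega, fun p hp => ?_⟩
      simp only [cut]
      split_ifs at * <;> omega

/-- the heaps read off a walk -/
def hp (s : ℕ → ℕ) (p : ℕ) : ℕ := s p ^^^ s (p + 1)

/-- the walk after a change of heap `p` by `δ` -/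
def mv (s : ℕ → ℕ) (p δ : ℕ) (q : ℕ) : ℕ := s q ^^^ if p < q then δ else 0

theorem xs_hp {s : ℕ → ℕ} (h0 : s 0 = 0) (q : ℕ) : xs (hp s) q = s q := by
  induction q with
  | zero => exact h0.symm
  | succ q ih => simp [xs, ih, hp]

theorem update_hp (s : ℕ → ℕ) (p δ : ℕ) : update (hp s) p (hp s p ^^^ δ) = hp (mv s p δ) := by
  funext q
  rcases lt_trichotomy p q with k | rfl | k
  · rw [update_of_ne k.ne']
    simp only [hp, mv, k, if_true, show p < q + 1 by omega]
    rw [Nat.xor_comm (s q) δ, Nat.xor_comm (s _) δ, ← Nat.xor_assoc, Nat.xor_comm _ δ]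
    simp
  · simp [hp, mv, Nat.xor_assoc]
  · rw [update_of_ne k.ne]
    simp [hp, mv, show ¬ p < q by omega, show ¬ p < q + 1 by omega]

/-- the outcome of the position with all cutting cells and the heaps of the walk `s` -/
def V (N H : ℕ) (b : Bool) (s : ℕ → ℕ) : Prop := ∀ S, Rel N H S (hp s) (full N) → Out b S

variable {s : ℕ → ℕ}

theorem V.zero (h0 : s 0 = 0) {q : ℕ} (h1 : 1 ≤ q) (h2 : q ≤ N) (k : s q = 0) : V N H true s :=
  fun _ R => by
    have hq : N + q ∈ full N := mem_full.2 (by omega)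
    exact .win _ _ (R.cutter hq).1 ((R.first hq).1 (by simpa [xs_hp h0]))

theorem V.last (h0 : s 0 = 0) {q : ℕ} (h1 : 1 ≤ q) (h2 : q < N) (k : s q = s N) : V N H true s :=
  fun _ R => by
    have hq : q ∈ full N := mem_full.2 (by omega)
    exact .win _ _ (R.cutter hq).1 ((R.first hq).1 (by simp [xs_hp h0, h2, k]))

theorem V.lose (h0 : s 0 = 0) (h1 : ∀ q, 1 ≤ q → q ≤ N → s q ≠ 0 ∧ (q < N → s q ≠ s N))
    (h2 : ∀ p < N, ∀ δ, hp s p ^^^ δ < hp s p → V N H true (mv s p δ)) : V N H false s :=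
  fun _ R => .lose _ fun c hc => by
    rcases R.cases hc with ⟨p, k1, j, k2, rfl⟩ | ⟨q, k1, rfl⟩
    · have e : j = hp s p ^^^ (hp s p ^^^ j) := by simp
      refine h2 p k1 (hp s p ^^^ j) (e ▸ k2) _ ?_
      rw [← update_hp, ← e]
      exact (R.heap k1 k2).2
    · have k2 := mem_full.1 k1
      refine (R.first k1).2 ?_
      split_ifs with k
      · simpa [xs_hp h0, eq_comm] using (h1 q (by omega) (by omega)).2 k
      · simpa [xs_hp h0] using (h1 (q - N) (by omega) (by omega)).1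

theorem V.win {p δ : ℕ} (k1 : p < N) (k2 : hp s p ^^^ δ < hp s p) (h2 : V N H false (mv s p δ)) :
    V N H true s :=
  fun _ R => .win _ _ (R.heap k1 k2).1 (h2 _ (update_hp s p δ ▸ (R.heap k1 k2).2))

end Pool.Agent.Chomp.PS
end

-- merged part: Pool.Agent.Work.MP_ff0f6a_lc.PS.Walk
section
/-!
A walk whose Chomp position simulates a game of alternating choices that ends with a move
constrained by binary conditions on all earlier choices.
-/

namespace Pool.Agent.Chomp.PS

open Function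

/-- parameters: choices per move, last time, base, constraints on the last move -/
structure Par where
  M : ℕ
  T : ℕ
  B : ℕ
  Rl : ℕ → ℕ → Bool

/-- digit `j` in base `B` -/
def dig (B j n : ℕ) : ℕ := n / B ^ j % B

theorem dig_xor (b j m n : ℕ) : dig (2 ^ b) j (m ^^^ n) = dig (2 ^ b) j m ^^^ dig (2 ^ b) j n := by
  simp only [dig, ← pow_mul, Nat.xor_div_two_pow, Nat.xor_mod_two_pow]

theorem dig_mul_lt {B i j : ℕ} (x : ℕ) (hB : 0 < B) (h : j < i) : dig B j (x * B ^ i) = 0 := by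
  obtain ⟨k, rfl⟩ := Nat.exists_eq_add_of_lt h
  rw [dig, show x * B ^ (j + k + 1) = x * B ^ k * B * B ^ j by ring,
    Nat.mul_div_cancel _ (by positivity), Nat.mul_mod_left]

theorem mul_div_gt {B i j x : ℕ} (hx : x < B) (h : i < j) : x * B ^ i / B ^ j = 0 :=
  Nat.div_eq_of_lt (lt_of_lt_of_le (Nat.mul_lt_mul_of_pos_right hx (Nat.pow_pos (by omega)))
    (by rw [← pow_succ']; exact Nat.pow_le_pow_right (by omega) h))

theorem dig_mul {B i j x : ℕ} (hx : x < B) : dig B j (x * B ^ i) = if j = i then x else 0 := by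
  rcases lt_trichotomy j i with h | rfl | h
  · rw [dig_mul_lt _ (by omega) h, if_neg h.ne]
  · rw [dig, Nat.mul_div_cancel _ (Nat.pow_pos (by omega)), Nat.mod_eq_of_lt hx, if_pos rfl]
  · rw [dig, mul_div_gt hx h, if_neg h.ne', Nat.zero_mod]

theorem compl_xor {b t : ℕ} (h : t < 2 ^ b) : (2 ^ b - 1) ^^^ t = 2 ^ b - (t + 1) :=
  Nat.eq_of_testBit_eq fun i => by
    rw [Nat.testBit_two_pow_sub_succ h, Nat.testBit_xor, Nat.testBit_two_pow_sub_one]
    by_cases k : i < b
    · simp [k]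
    · simp [k, Nat.testBit_lt_two_pow (h.trans_le (Nat.pow_le_pow_right (by omega) (not_lt.1 k)))]

theorem xor_eq_swap {a b c : ℕ} (h : a ^^^ b = c) : b = a ^^^ c := by simp [← h]

namespace Par

variable (P : Par)

/-- the time of a node -/
def tm (v : ℕ) : ℕ := v / P.M
/-- the digit used at a time -/
def gt (t : ℕ) : ℕ := if t = P.T then 3 else t % 2 + 1
/-- the code of a node -/
def cd (v : ℕ) : ℕ := (P.tm v * P.B ^ 4) ^^^ ((v + 1) * P.B ^ P.gt (P.tm v))
/-- the first node -/
def s0 : ℕ := 2 * P.M - 1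
/-- the bound on the nodes -/
def E : ℕ := (P.T + 1) * P.M
/-- the end of the walk -/
def Sg : ℕ := P.B ^ 5 - 1
/-- admissible pairs of an earlier and a current node -/
def Pair (r u w : ℕ) : Prop :=
  r < w ∧ P.tm (r + 1) ≤ P.tm u + 1 ∧ P.tm u < P.tm w ∧ (P.tm w = P.T → P.Rl w u = true)
/-- admissible changes on the left -/
def InA (r y : ℕ) : Prop := ∃ u ≤ r, P.s0 ≤ u ∧ y = P.cd u
/-- admissible changes on the right -/
def InB (r y : ℕ) : Prop := y = 0 ∨ ∃ u ≤ r, ∃ w < P.E, P.Pair r u w ∧ y = P.cd u ^^^ P.cd w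
/-- values that the walk avoids in region `r` -/
def OK (r y : ℕ) : Prop := P.InA r y ∨ P.InB r (P.Sg ^^^ y)

instance (r y : ℕ) : Decidable (P.OK r y) := by
  unfold OK InA InB Pair; infer_instance

/-- the length of a region -/
def L : ℕ := P.M + 2 * P.B ^ 5
/-- the values of the walk in region `r` -/
def sg (r i : ℕ) : ℕ :=
  if i < P.M then P.Sg ^^^ (P.cd ((P.tm r - 1) * P.M + i) ^^^ P.cd r)
  else if P.OK r ((i - P.M) % P.B ^ 5) then P.cd (r + 1) else (i - P.M) % P.B ^ 5
/-- the number of heaps -/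
def N : ℕ := (P.E - P.s0) * P.L + 1
/-- the walk -/
def wk (q : ℕ) : ℕ :=
  if q = 0 then P.cd P.s0 else if q = P.N then P.Sg
  else P.sg ((q - 1) / P.L + P.s0) ((q - 1) % P.L)

/-- the simulated game: the player to move at time `t`, with `k` moves left, wins -/
def Q : ℕ → ℕ → (ℕ → ℕ) → Prop
  | 0, _, _ => False
  | k + 1, t, v => ∃ x, P.tm x = t + 1 ∧ (k = 0 → ∀ j, 1 ≤ j → j ≤ t → P.Rl x (v j) = true) ∧
      ¬ Q k (t + 1) (update v (t + 1) x)

/-- admissible parameters -/
structure Ok : Prop where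
  hM : 0 < P.M
  hT : 0 < P.T
  hB : ∃ b, P.B = 2 ^ b
  hE : P.E + 1 < P.B

/-- a history `v` up to time `t`; `n r` is its last node that is at most `r` -/
structure Legit (v : ℕ → ℕ) (t : ℕ) (n : ℕ → ℕ) : Prop where
  one : 1 ≤ t
  le : t ≤ P.T
  st : v 1 = P.s0
  tm : ∀ j, 1 ≤ j → j ≤ t → P.tm (v j) = j
  fin : t = P.T → ∀ j, 1 ≤ j → j < t → P.Rl (v t) (v j) = true
  nd : ∀ r, P.s0 ≤ r → ∃ j, 1 ≤ j ∧ j ≤ t ∧ n r = v j ∧ v j ≤ r ∧ (j = t ∨ r < v (j + 1))

variable {P}

theorem tm_mono {a b : ℕ} (h : a ≤ b) : P.tm a ≤ P.tm b := Nat.div_le_div_right h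

theorem tm_lt {a b : ℕ} (h : P.tm a < P.tm b) : a < b := Nat.lt_of_div_lt_div h

theorem gt_succ (t : ℕ) : P.gt t ≠ P.gt (t + 1) := by
  unfold gt; split_ifs <;> omega

theorem gt_mem (t : ℕ) : 1 ≤ P.gt t ∧ P.gt t ≤ 3 := by
  unfold gt; split_ifs <;> omega

theorem gt_last {t : ℕ} (h : t ≠ P.T) : P.gt P.T ≠ P.gt t := by
  unfold gt; split_ifs <;> omega

variable (O : P.Ok)
include O

theorem Ok.lt_E {a : ℕ} : a < P.E ↔ P.tm a ≤ P.T := by
  rw [E, ← Nat.div_lt_iff_lt_mul O.hM, Nat.lt_succ_iff]; rfl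

theorem Ok.tm_s0 : P.tm P.s0 = 1 := by
  have := O.hM
  exact Nat.div_eq_of_lt_le (by unfold s0; omega) (by unfold s0; omega)

theorem Ok.s0_lt : P.s0 < P.E := O.lt_E.2 (O.tm_s0 ▸ O.hT)

theorem Ok.top_xor (a b : ℕ) : (a ^^^ b) / P.B ^ 4 = (a / P.B ^ 4) ^^^ (b / P.B ^ 4) := by
  obtain ⟨b, hb⟩ := O.hB
  simp only [hb, ← pow_mul, Nat.xor_div_two_pow]

theorem Ok.xor_lt {a b : ℕ} (ha : a < P.B ^ 5) (hb : b < P.B ^ 5) : a ^^^ b < P.B ^ 5 := by
  obtain ⟨b, hb'⟩ := O.hB
  simp only [hb', ← pow_mul] at ha hb ⊢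
  exact Nat.xor_lt_two_pow ha hb

theorem Ok.top_cd {v : ℕ} (h : v ≤ P.E) : P.cd v / P.B ^ 4 = P.tm v := by
  have := O.hE
  have := gt_mem (P := P) (P.tm v)
  rw [cd, O.top_xor, Nat.mul_div_cancel _ (Nat.pow_pos (by omega)),
    mul_div_gt (by omega) (by omega), Nat.xor_zero]

theorem Ok.top_Sg : P.Sg / P.B ^ 4 = P.B - 1 := by
  have := O.hE
  have h1 : 0 < P.B ^ 4 := Nat.pow_pos (by omega)
  have h2 : (P.B - 1 + 1) * P.B ^ 4 = P.B ^ 5 := by rw [Nat.sub_add_cancel (by omega)]; ring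
  refine Nat.div_eq_of_lt_le ?_ ?_ <;> unfold Sg
  · rw [Nat.add_one_mul] at h2; omega
  · rw [h2]; exact Nat.sub_lt (Nat.pow_pos (by omega)) one_pos

theorem Ok.cd_lt {v : ℕ} (h : v ≤ P.E) : P.cd v < P.B ^ 5 := by
  have := O.hE
  have h1 : P.tm v ≤ v := Nat.div_le_self _ _
  rw [pow_succ', ← Nat.div_lt_iff_lt_mul (Nat.pow_pos (by omega)), O.top_cd h]
  omega

theorem Ok.Sg_lt : P.Sg < P.B ^ 5 := by
  have := O.hE
  have : 0 < P.B ^ 5 := Nat.pow_pos (by omega)
  unfold Sg; omega

theorem Ok.dig_xor (j a b : ℕ) : dig P.B j (a ^^^ b) = dig P.B j a ^^^ dig P.B j b := by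
  obtain ⟨b, hb⟩ := O.hB
  rw [hb, PS.dig_xor]

theorem Ok.dig_cd {v j : ℕ} (h : v ≤ P.E) (hj : j ≤ 3) :
    dig P.B j (P.cd v) = if j = P.gt (P.tm v) then v + 1 else 0 := by
  have := O.hE
  rw [cd, O.dig_xor, dig_mul_lt _ (by omega) (by omega), dig_mul (by omega), Nat.zero_xor]

theorem Ok.dig0 {v : ℕ} (h : v ≤ P.E) : dig P.B 0 (P.cd v) = 0 := by
  have := gt_mem (P := P) (P.tm v)
  rw [O.dig_cd h (by omega), if_neg (by omega)]

theorem Ok.dig0_Sg : dig P.B 0 P.Sg ≠ 0 := by
  have := O.hE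
  have h1 : 0 < P.B ^ 5 := Nat.pow_pos (by omega)
  intro h
  have h2 : P.B ∣ P.B ^ 5 - 1 := Nat.dvd_of_mod_eq_zero (by simpa [dig, Sg] using h)
  have h3 := Nat.dvd_sub (dvd_pow_self P.B (n := 5) (by omega)) h2
  have := Nat.le_of_dvd (by omega) h3
  omega

theorem Ok.inj {a b : ℕ} (ha : a ≤ P.E) (hb : b ≤ P.E) (e : P.cd a = P.cd b) : a = b := by
  have := congrArg (dig P.B (P.gt (P.tm a))) e
  rw [O.dig_cd ha (gt_mem _).2, O.dig_cd hb (gt_mem _).2, if_pos rfl] at this
  split_ifs at this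
  omega

theorem Ok.W {a b c d : ℕ} (ha : a ≤ P.E) (hb : b ≤ P.E) (hc : c ≤ P.E) (hd : d ≤ P.E)
    (e : P.cd a ^^^ P.cd b = P.cd c ^^^ P.cd d) (g : P.gt (P.tm a) ≠ P.gt (P.tm b)) :
    (a = c ∧ b = d) ∨ (a = d ∧ b = c) := by
  have h1 := congrArg (dig P.B (P.gt (P.tm a))) e
  have h2 := congrArg (dig P.B (P.gt (P.tm b))) e
  simp only [O.dig_xor, O.dig_cd, ha, hb, hc, hd, (gt_mem _).2, if_true, g, g.symm,
    if_false] at h1 h2
  split_ifs at h1 h2 <;> simp_all

theorem Ok.W' {a b c d : ℕ} (ha : a ≤ P.E) (hb : b ≤ P.E) (hc : c ≤ P.E) (hd : d ≤ P.E)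
    (e : P.cd a ^^^ P.cd b = P.cd c ^^^ P.cd d) (g : P.gt (P.tm a) = P.gt (P.tm b)) (k : a ≠ b) :
    P.gt (P.tm a) = P.gt (P.tm c) := by
  have h1 := congrArg (dig P.B (P.gt (P.tm a))) e
  have h2 := congrArg (dig P.B (P.gt (P.tm c))) e
  by_contra h
  simp only [O.dig_xor, O.dig_cd, ha, hb, hc, hd, (gt_mem _).2, if_true, ← g, h, Ne.symm h,
    if_false] at h1 h2
  split_ifs at h1 h2 <;> simp_all

theorem Ok.K1 {r a b : ℕ} (hr : r < P.E) (ha : a ≤ P.E) (hb : b ≤ P.E)
    (g : P.gt (P.tm a) ≠ P.gt (P.tm b)) (h : P.InB r (P.cd a ^^^ P.cd b)) :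
    (a ≤ r ∧ P.Pair r a b) ∨ (b ≤ r ∧ P.Pair r b a) := by
  rcases h with h | ⟨u, h1, w, h2, h3, h⟩
  · exact absurd (by rw [O.inj ha hb (Nat.xor_eq_zero_iff.1 h)]) g
  · rcases O.W ha hb (by omega) h2.le h g with ⟨rfl, rfl⟩ | ⟨rfl, rfl⟩
    exacts [.inl ⟨h1, h3⟩, .inr ⟨h1, h3⟩]

theorem Ok.K2 {r a b : ℕ} (hr : r < P.E) (ha : a ≤ P.E) (hb : b ≤ P.E)
    (g : P.gt (P.tm a) = P.gt (P.tm b)) (k : a ≠ b) (h : P.InB r (P.cd a ^^^ P.cd b))
    (k1 : P.tm a ≤ P.tm (r + 1)) (k2 : P.tm (r + 1) ≤ P.tm a + 1) : P.tm a < P.tm b := by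
  rcases h with h | ⟨u, h1, w, h2, h3, h⟩
  · exact absurd (O.inj ha hb (Nat.xor_eq_zero_iff.1 h)) k
  · have h4 := O.W' ha hb (by omega) h2.le h g k
    have h5 := tm_mono (P := P) (h1.trans r.le_succ)
    have h6 := h3.2.1
    have h7 := congrArg (· / P.B ^ 4) h
    simp only [O.top_xor, O.top_cd ha, O.top_cd hb, O.top_cd h2.le,
      O.top_cd (show u ≤ P.E by omega)] at h7
    have e : P.tm u = P.tm a := by
      by_contra e
      rcases (show P.tm u = P.tm a + 1 ∨ P.tm a = P.tm u + 1 by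
        simp only [Nat.succ_eq_add_one] at h5; omega) with e | e <;> rw [e] at h4
      exacts [gt_succ _ h4, gt_succ _ h4.symm]
    rw [e, Nat.xor_right_inj] at h7
    rw [h7, ← e]
    exact h3.2.2.1

theorem Ok.digA {r y : ℕ} (hr : r < P.E) (h : P.InA r y) : dig P.B 0 y = 0 := by
  obtain ⟨u, h1, -, rfl⟩ := h
  exact O.dig0 (by omega)

theorem Ok.digB {r y : ℕ} (hr : r < P.E) (h : P.InB r y) : dig P.B 0 y = 0 := by
  rcases h with rfl | ⟨u, h1, w, h2, -, rfl⟩
  · simp [dig]
  · rw [O.dig_xor, O.dig0 h2.le, O.dig0 (by omega)]; rfl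

theorem Ok.okA {r y : ℕ} (hr : r < P.E) (h : P.OK r y) (k : dig P.B 0 y = 0) : P.InA r y :=
  h.resolve_right fun h => O.dig0_Sg (by simpa [O.dig_xor, k] using O.digB hr h)

theorem Ok.okB {r y : ℕ} (hr : r < P.E) (h : P.OK r (P.Sg ^^^ y)) (k : dig P.B 0 y = 0) :
    P.InB r y := by
  simpa using h.resolve_left fun h => O.dig0_Sg (by simpa [O.dig_xor, k] using O.digA hr h)

theorem Ok.tail {r i : ℕ} (h1 : P.s0 ≤ r) (hi : i < P.M) :
    P.tm ((P.tm r - 1) * P.M + i) + 1 = P.tm r := by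
  have := O.tm_s0 ▸ tm_mono (P := P) h1
  have e : P.tm ((P.tm r - 1) * P.M + i) = P.tm r - 1 :=
    Nat.div_eq_of_lt_le (by omega) (by rw [Nat.add_one_mul]; omega)
  omega

theorem Ok.not_ok {r i : ℕ} (h1 : P.s0 ≤ r) (hr : r < P.E) : ¬ P.OK r (P.sg r i) := by
  unfold sg
  split_ifs with k k'
  · intro h
    have e := O.tail h1 k
    have e' := tm_lt (P := P) (Nat.lt_of_succ_le e.le)
    rcases O.K1 hr (by omega) hr.le (fun k => gt_succ _ (k.trans (congrArg P.gt e.symm)))
      (O.okB hr h (by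
      rw [O.dig_xor, O.dig0 hr.le, O.dig0 (by omega)]; rfl)) with h | h <;>
    · have := h.2.1; omega
  · intro h
    obtain ⟨u, h2, -, h3⟩ := O.okA hr h (O.dig0 hr)
    have := O.inj hr (by omega) h3
    omega
  · exact k'

theorem Ok.sg_lt {r i : ℕ} (h1 : P.s0 ≤ r) (hr : r < P.E) : P.sg r i < P.B ^ 5 := by
  unfold sg
  split_ifs with k k'
  · have e' := tm_lt (P := P) (Nat.lt_of_succ_le (O.tail h1 k).le)
    exact O.xor_lt O.Sg_lt (O.xor_lt (O.cd_lt (by omega)) (O.cd_lt hr.le))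
  · exact O.cd_lt hr
  · exact Nat.mod_lt _ (by have := O.Sg_lt; omega)

variable {v n : ℕ → ℕ} {t : ℕ} (G : P.Legit v t n)
include G

omit O in
theorem Legit.mono {i j : ℕ} (h1 : 1 ≤ i) (h2 : i < j) (h3 : j ≤ t) : v i < v j :=
  tm_lt (P := P) (by rw [G.tm i h1 (by omega), G.tm j (by omega) h3]; exact h2)

omit O in
theorem Legit.s0_le {j : ℕ} (h1 : 1 ≤ j) (h3 : j ≤ t) : P.s0 ≤ v j := by
  rcases h1.lt_or_eq with h | rfl
  exacts [G.st ▸ (G.mono le_rfl h h3).le, G.st.ge]

omit O in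
theorem Legit.nd_eq {j r : ℕ} (h1 : 1 ≤ j) (h3 : j ≤ t) (h4 : v j ≤ r)
    (h5 : j = t ∨ r < v (j + 1)) : n r = v j := by
  obtain ⟨i, k1, k2, k3, k4, k5⟩ := G.nd r ((G.s0_le h1 h3).trans h4)
  have a := fun h h' => G.mono (i := i + 1) (j := j) (by omega) h h'
  have b := fun h h' => G.mono (i := j + 1) (j := i) (by omega) h h'
  rcases lt_trichotomy i j with h | rfl | h
  · rcases (show i + 1 = j ∨ i + 1 < j by omega) with rfl | h
    · omega
    · have := a h h3; omega
  · exact k3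
  · rcases (show j + 1 = i ∨ j + 1 < i by omega) with rfl | h
    · omega
    · have := b h k2; omega

theorem Legit.lt_E {j : ℕ} (h1 : 1 ≤ j) (h3 : j ≤ t) : v j < P.E :=
  O.lt_E.2 (by rw [G.tm j h1 h3]; exact h3.trans G.le)

theorem Legit.n_lt {r : ℕ} (h : P.s0 ≤ r) : n r < P.E := by
  obtain ⟨i, k1, k2, k3, -⟩ := G.nd r h
  exact k3 ▸ G.lt_E O k1 k2

theorem Legit.detect {x δ : ℕ} (hx : P.s0 ≤ x) (hx' : x ≤ P.E) (hδ : δ ≠ 0)
    (hL : ∀ r, x ≤ r → r < P.E → P.OK r (P.cd (n r) ^^^ δ))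
    (hS : ∀ r, P.s0 ≤ r → r < x → P.OK r (P.Sg ^^^ (P.cd (v t) ^^^ δ ^^^ P.cd (n r))))
    (hP : P.Sg ^^^ (P.cd (v t) ^^^ δ) ≠ 0) :
    (P.tm x = t + 1 ∧ t < P.T ∧ (t + 1 = P.T → ∀ j, 1 ≤ j → j ≤ t → P.Rl x (v j) = true) ∧
      δ = P.cd (v t) ^^^ P.cd x) ∨ (2 ≤ t ∧ x = v t ∧ δ = P.cd (v (t - 1)) ^^^ P.cd x) := by
  have s1 := O.s0_lt
  have t1 := G.one
  have c1 := G.lt_E O t1 le_rfl
  have c2 := G.s0_le t1 le_rfl
  have c3 := G.tm t t1 le_rfl
  have n1 : ∀ r, v t ≤ r → n r = v t := fun r h => G.nd_eq t1 le_rfl h (.inl rfl)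
  have b1 : ∀ y, P.InB (P.E - 1) y → y = 0 := fun y h =>
    h.resolve_right fun ⟨_, _, _, h1, h2, _⟩ => by have := h2.1; omega
  have d0 : dig P.B 0 δ = 0 := by
    rcases hx'.lt_or_eq with k | k
    · rcases hL (P.E - 1) (by omega) (by omega) with h | h <;> rw [n1 _ (by omega)] at h
      · simpa [O.dig_xor, O.dig0 c1.le] using O.digA (by omega) h
      · exact absurd (b1 _ h) hP
    · have e : n P.s0 = P.s0 := G.st ▸ G.nd_eq le_rfl t1 le_rfl (by
        rcases t1.lt_or_eq with h | h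
        exacts [.inr (G.mono le_rfl (by omega) h), .inl h])
      rcases hS P.s0 le_rfl (by omega) with ⟨u, h1, h2, h⟩ | h <;> rw [e] at h
      · rw [le_antisymm h1 h2, ← Nat.xor_assoc] at h
        exact absurd (by simpa [Nat.xor_assoc] using congrArg (· ^^^ P.cd P.s0) h) hP
      · simpa [O.dig_xor, O.dig0 c1.le, O.dig0 s1.le] using O.digB s1 h
  have hL' : ∀ r, x ≤ r → r < P.E → P.InA r (P.cd (n r) ^^^ δ) := fun r h1 h2 =>
    O.okA h2 (hL r h1 h2) (by simp [O.dig_xor, d0, O.dig0 (G.n_lt O (hx.trans h1)).le])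
  have hS' : ∀ r, P.s0 ≤ r → r < x → P.InB r (P.cd (v t) ^^^ δ ^^^ P.cd (n r)) := fun r h1 h2 =>
    O.okB (by omega) (hS r h1 h2) (by simp [O.dig_xor, d0, O.dig0 (G.n_lt O h1).le, O.dig0 c1.le])
  have x1 : x < P.E := hx'.lt_of_ne fun k => hδ (by
    have := b1 _ (hS' (P.E - 1) (by omega) (by omega))
    rw [n1 _ (by omega), Nat.xor_comm _ δ] at this
    simpa using this)
  obtain ⟨w, w1, w2, w3⟩ := hL' (P.E - 1) (by omega) (by omega)
  rw [n1 _ (by omega)] at w3
  obtain rfl := xor_eq_swap w3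
  clear hL hS hP w3 d0
  have w4 : w ≠ v t := by rintro rfl; simp at hδ
  simp only [Nat.xor_xor_cancel_left] at hS'
  have w5 : v t ≤ x → w ≤ x := fun k => by
    obtain ⟨u, h1, -, h⟩ := hL' x le_rfl x1
    rw [n1 _ k, Nat.xor_xor_cancel_left] at h
    exact O.inj (a := w) (b := u) (by omega) (by omega) h ▸ h1
  have pv : P.s0 < v t → 2 ≤ t ∧ n (v t - 1) = v (t - 1) ∧ v (t - 1) < v t ∧
      P.tm (v (t - 1)) + 1 = t := fun k => by
    have t2 : 2 ≤ t := by
      by_contra h
      obtain rfl : t = 1 := by omega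
      have := G.st; omega
    have := G.mono (i := t - 1) (by omega) (by omega) le_rfl
    have := G.tm (t - 1) (by omega) (by omega)
    exact ⟨t2, G.nd_eq (by omega) (by omega) (by omega)
      (.inr (by rw [Nat.sub_add_cancel t1]; omega)), by omega, by omega⟩
  have g1 : ∀ u, P.tm u + 1 = t → P.gt (P.tm u) ≠ P.gt (P.tm (v t)) := fun u k => by
    rw [c3, ← k]; exact gt_succ _
  rcases lt_trichotomy x (v t) with k | rfl | k
  · obtain ⟨-, p1, p2, p3⟩ := pv (by omega)
    obtain ⟨u, h1, -, h⟩ := hL' (v t - 1) (by omega) (by omega)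
    rw [p1, ← Nat.xor_assoc] at h
    have := O.W (a := v (t - 1)) (b := v t) (c := u) (d := w) (by omega) (by omega) (by omega)
      (by omega) (by rw [← h]; simp) (g1 _ p3)
    omega
  · have w6 := w5 le_rfl
    obtain ⟨p0, p1, p2, p3⟩ := pv (by omega)
    have h := hS' (v t - 1) (by omega) (by omega)
    rw [p1, Nat.xor_comm] at h
    by_cases e : v (t - 1) = w
    · exact .inr ⟨p0, rfl, by rw [e, Nat.xor_comm]⟩
    by_cases g : P.gt (P.tm (v (t - 1))) = P.gt (P.tm w)
    · have e1 : v t - 1 + 1 = v t := by omega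
      have := O.K2 (by omega) (by omega) (by omega) g e h (by rw [e1]; omega) (by rw [e1]; omega)
      have := tm_mono (P := P) w6
      exact absurd (g.trans (by congr 1; omega)) (g1 _ p3)
    · rcases O.K1 (by omega) (by omega) (by omega) g h with h | h <;>
      · have := h.2.1; omega
  · have w6 := w5 k.le
    by_cases g : P.gt (P.tm w) = P.gt (P.tm (v t))
    · exfalso
      rcases w4.lt_or_gt with k1 | k1
      · obtain ⟨p0, p1, p2, p3⟩ := pv (by omega)
        have h := hS' (v t - 1) (by omega) (by omega)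
        rw [p1] at h
        rcases O.K1 (by omega) (by omega) (by omega) (g ▸ (g1 _ p3).symm) h with h | h <;>
        · have := h.2.1; omega
      · have h := hS' (w - 1) (by omega) (by omega)
        rw [n1 _ (by omega)] at h
        have e1 : w - 1 + 1 = w := by omega
        have := O.K2 (by omega) (by omega) (by omega) g w4 h (by rw [e1]) (by rw [e1]; omega)
        have := tm_mono (P := P) k1.le
        omega
    · have h := hS' (x - 1) (by omega) (by omega)
      rw [n1 _ (by omega)] at h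
      rcases O.K1 (by omega) (by omega) (by omega) g h with h | ⟨-, h1, h2, h3, -⟩
      · have := h.2.1; omega
      obtain rfl : w = x := by omega
      rw [show w - 1 + 1 = w by omega] at h2
      have := O.lt_E.1 x1
      refine .inl ⟨by omega, by omega, fun e j j1 j2 => ?_, rfl⟩
      have j3 : v j ≤ v t := by
        rcases j2.lt_or_eq with h | rfl
        exacts [(G.mono j1 h le_rfl).le, le_rfl]
      have h := hS' (v j) (G.s0_le j1 j2) (by omega)
      rw [G.nd_eq j1 j2 le_rfl (by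
        rcases j2.lt_or_eq with h | h
        exacts [.inr (G.mono j1 (by omega) h), .inl h])] at h
      have e1 : P.tm w = P.T := by omega
      rcases O.K1 (by omega) (by omega) (by omega)
        (by rw [e1, G.tm j j1 j2]; exact gt_last (by omega)) h with h | h
      · omega
      · exact h.2.2.2.2 e1

end Par

end Pool.Agent.Chomp.PS
end

-- merged part: Pool.Agent.Work.MP_ff0f6a_lc.PS.Sim
section
/-!
The Chomp position of the walk has the outcome of the simulated game.
-/

namespace Pool.Agent.Chomp.PS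

open Function

namespace Par

variable {P : Par}

/-- the walk after the history described by `n` -/
def walk (P : Par) (n : ℕ → ℕ) (q : ℕ) : ℕ := P.wk q ^^^ P.cd (n ((q - 1) / P.L + P.s0))

/-- the gap with index `i` in region `r` -/
def gap (P : Par) (r i : ℕ) : ℕ := (r - P.s0) * P.L + i + 1

theorem gap_le {r r' i i' : ℕ} (h1 : P.s0 ≤ r) (hi : i < P.L) (h : r < r' ∨ (r = r' ∧ i ≤ i')) :
    P.gap r i ≤ P.gap r' i' := by
  unfold gap
  rcases h with h | ⟨rfl, h⟩
  · have := Nat.mul_le_mul_right P.L (show r - P.s0 + 1 ≤ r' - P.s0 by omega)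
    rw [Nat.add_one_mul] at this
    omega
  · omega

theorem gap_succ {r : ℕ} (h1 : P.s0 ≤ r) (h : 0 < P.L) :
    P.gap r (P.L - 1) + 1 = P.gap (r + 1) 0 := by
  unfold gap
  rw [show r + 1 - P.s0 = r - P.s0 + 1 by omega, Nat.add_one_mul]
  omega

theorem gap_div {r i : ℕ} (h1 : P.s0 ≤ r) (hi : i < P.L) :
    (P.gap r i - 1) / P.L + P.s0 = r ∧ (P.gap r i - 1) % P.L = i := by
  rw [gap, Nat.add_sub_cancel, Nat.add_comm _ i, Nat.add_mul_div_right _ _ (by omega),
    Nat.add_mul_mod_self_right, Nat.div_eq_of_lt hi, Nat.mod_eq_of_lt hi]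
  omega

theorem gap_surj (h : 0 < P.L) (p : ℕ) : ∃ r i, P.s0 ≤ r ∧ i < P.L ∧ p + 1 = P.gap r i :=
  ⟨p / P.L + P.s0, p % P.L, Nat.le_add_left _ _, Nat.mod_lt _ h, by
    rw [gap, Nat.add_sub_cancel, Nat.div_add_mod']⟩

theorem gap_N : P.gap P.E 0 = P.N := rfl

variable (O : P.Ok)
include O

theorem Ok.L_pos : 0 < P.L := by have := O.hM; unfold L; omega

theorem Ok.gap_lt {r i : ℕ} (h1 : P.s0 ≤ r) (h2 : r < P.E) (hi : i < P.L) : P.gap r i < P.N := by
  have := gap_le (r' := r) (i' := P.L - 1) h1 hi (.inr ⟨rfl, by omega⟩)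
  have := gap_succ h1 O.L_pos
  have := gap_le (P := P) (r := r + 1) (r' := P.E) (i := 0) (i' := 0) (by omega) O.L_pos (by omega)
  rw [← gap_N]; omega

theorem Ok.walk_gap (n : ℕ → ℕ) {r i : ℕ} (h1 : P.s0 ≤ r) (h2 : r < P.E) (hi : i < P.L) :
    P.walk n (P.gap r i) = P.sg r i ^^^ P.cd (n r) := by
  rw [walk, wk, if_neg (by unfold gap; omega), if_neg (O.gap_lt h1 h2 hi).ne, (gap_div h1 hi).1,
    (gap_div h1 hi).2]

theorem Ok.gap_cases {q : ℕ} (h1 : 1 ≤ q) (h2 : q < P.N) :
    ∃ r i, P.s0 ≤ r ∧ r < P.E ∧ i < P.L ∧ q = P.gap r i := by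
  obtain ⟨r, i, k1, k2, k3⟩ := gap_surj O.L_pos (q - 1)
  refine ⟨r, i, k1, lt_of_not_ge fun k => ?_, k2, by omega⟩
  have := gap_le (r := P.E) (r' := r) (i := 0) (i' := i) O.s0_lt.le O.L_pos (by omega)
  rw [gap_N] at this; omega

theorem Ok.sg_last (r : ℕ) : P.sg r (P.L - 1) = P.cd (r + 1) := by
  have := O.Sg_lt
  have e : (P.L - 1 - P.M) % P.B ^ 5 = P.Sg := by
    rw [show P.L - 1 - P.M = P.Sg + P.B ^ 5 by unfold L Sg; omega, Nat.add_mod_right,
      Nat.mod_eq_of_lt this]
  rw [sg, if_neg (by unfold L; omega), e, if_pos (.inr (.inl (Nat.xor_self _)))]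

omit O in
theorem sg_full {r y : ℕ} (hy : y < P.B ^ 5) (h : ¬ P.OK r y) :
    P.sg r (P.M + y) = y ∧ P.sg r (P.M + y + P.B ^ 5) = y := by
  simp [sg, Nat.add_assoc, Nat.mod_eq_of_lt hy, h]

variable {v n : ℕ → ℕ} {t : ℕ} (G : P.Legit v t n)
include G

omit O in
theorem Legit.n_s0 : n P.s0 = P.s0 := G.st ▸ G.nd_eq le_rfl G.one le_rfl (by
  rcases G.one.lt_or_eq with h | h
  exacts [.inr (G.mono le_rfl (by omega) h), .inl h])

omit O in
theorem Legit.walk_zero : P.walk n 0 = 0 := by simp [walk, wk, G.n_s0]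

theorem Legit.walk_N : P.walk n P.N = P.Sg ^^^ P.cd (v t) := by
  have := (gap_div O.s0_lt.le O.L_pos).1
  rw [gap_N] at this
  rw [walk, wk, if_neg (by unfold N; omega), if_pos rfl, this,
    G.nd_eq G.one le_rfl (G.lt_E O G.one le_rfl).le (.inl rfl)]

theorem Legit.walk_lt {q : ℕ} (h : q ≤ P.N) : P.walk n q < P.B ^ 5 := by
  have := O.Sg_lt
  rcases Nat.eq_zero_or_pos q with rfl | k
  · rw [G.walk_zero]; omega
  rcases h.lt_or_eq with h | rfl
  · obtain ⟨r, i, k1, k2, k3, rfl⟩ := O.gap_cases k h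
    rw [O.walk_gap n k1 k2 k3]
    exact O.xor_lt (O.sg_lt k1 k2) (O.cd_lt (G.n_lt O k1).le)
  · rw [G.walk_N O]
    exact O.xor_lt this (O.cd_lt (G.lt_E O G.one le_rfl).le)

theorem Legit.hp_lt {p : ℕ} (h : p < P.N) : hp (P.walk n) p < P.B ^ 5 :=
  O.xor_lt (G.walk_lt O h.le) (G.walk_lt O h)

theorem Legit.safe (q : ℕ) (h1 : 1 ≤ q) (h2 : q ≤ P.N) :
    P.walk n q ≠ 0 ∧ (q < P.N → P.walk n q ≠ P.walk n P.N) := by
  have c1 := G.lt_E O G.one le_rfl
  rcases h2.lt_or_eq with h | rfl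
  · obtain ⟨r, i, k1, k2, k3, rfl⟩ := O.gap_cases h1 h
    obtain ⟨j, j1, j2, j3, j4, j5⟩ := G.nd r k1
    have key := O.not_ok (i := i) k1 k2
    rw [O.walk_gap n k1 k2 k3, G.walk_N O, j3]
    refine ⟨fun e => key (.inl ⟨v j, j4, G.s0_le j1 j2, Nat.xor_eq_zero_iff.1 e⟩),
      fun _ e => key (.inr ?_)⟩
    have e' : P.Sg ^^^ P.sg r i = P.cd (v j) ^^^ P.cd (v t) := by
      rw [xor_eq_swap e.symm, Nat.xor_comm (P.cd (v j)), Nat.xor_assoc]; simp
    rw [e']
    rcases j2.lt_or_eq with j6 | rfl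
    · have j7 : r < v (j + 1) := j5.resolve_left j6.ne
      have j8 := tm_mono (P := P) (Nat.succ_le_of_lt j7)
      have j9 : v (j + 1) ≤ v t := by
        rcases (Nat.succ_le_of_lt j6).lt_or_eq with h | h
        exacts [(G.mono (by omega) h le_rfl).le, h ▸ le_rfl]
      refine .inr ⟨_, j4, _, c1, ⟨by omega, ?_, ?_, fun e => ?_⟩, rfl⟩
      · rwa [G.tm _ (by omega) j6, ← G.tm j j1 j2] at j8
      · rwa [G.tm j j1 j2, G.tm t G.one le_rfl]
      · exact G.fin (G.tm t G.one le_rfl ▸ e) j j1 j6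
    · exact .inl (Nat.xor_self _)
  · refine ⟨fun e => O.dig0_Sg ?_, fun h => absurd h (lt_irrefl _)⟩
    rw [G.walk_N O] at e
    rw [Nat.xor_eq_zero_iff.1 e, O.dig0 c1.le]

theorem Legit.real {x : ℕ} (h1 : P.s0 < x) (h2 : x < P.E) (h3 : P.tm (n (x - 1)) + 1 = P.tm x)
    (h4 : n x = v t) (δ : ℕ) :
    (hp (P.walk n) (P.gap x 0 - 1) ^^^ δ) / P.B ^ 4 = (P.B - 1) ^^^ t ^^^ δ / P.B ^ 4 := by
  have l1 := O.L_pos
  have e := gap_succ (P := P) (r := x - 1) (by omega) l1
  have e1 : x - 1 + 1 = x := by omega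
  have e2 := O.tail h1.le O.hM
  have e3 := tm_lt (P := P) (Nat.lt_of_succ_le e2.le)
  rw [e1] at e
  rw [hp, Nat.sub_add_cancel (by unfold gap; omega), ← e, Nat.add_sub_cancel,
    O.walk_gap n (by omega) (by omega) (by omega), e, O.walk_gap n h1.le h2 l1, O.sg_last, e1, h4,
    sg, if_pos O.hM]
  simp only [O.top_xor, O.top_Sg, O.top_cd h2.le, O.top_cd (G.lt_E O G.one le_rfl).le,
    O.top_cd (e3.trans h2).le, O.top_cd (G.n_lt O (show P.s0 ≤ x - 1 by omega)).le,
    G.tm t G.one le_rfl]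
  rw [show P.tm (n (x - 1)) = P.tm ((P.tm x - 1) * P.M + 0) by omega]
  congr 1
  generalize P.tm ((P.tm x - 1) * P.M + 0) = a
  apply Nat.eq_of_testBit_eq
  intro i
  simp only [Nat.testBit_xor]
  cases a.testBit i <;> cases (P.tm x).testBit i <;> simp

theorem Legit.mv_next {x : ℕ} (h : P.tm x = t + 1) :
    mv (P.walk n) (P.gap x 0 - 1) (P.cd (v t) ^^^ P.cd x) =
      P.walk fun r => if x ≤ r then x else n r := by
  have l1 := O.L_pos
  have c1 := G.s0_le G.one le_rfl
  have c2 : v t < x := tm_lt (P := P) (by rw [h, G.tm t G.one le_rfl]; omega)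
  funext q
  have e : P.gap x 0 - 1 < q ↔ x ≤ (q - 1) / P.L + P.s0 := by
    rw [← Nat.sub_le_iff_le_add, Nat.le_div_iff_mul_le l1]
    have := Nat.mul_pos (show 0 < x - P.s0 by omega) l1
    unfold gap; omega
  simp only [mv, walk, e]
  split_ifs with k
  · rw [G.nd_eq G.one le_rfl (c2.le.trans k) (.inl rfl), Nat.xor_assoc, Nat.xor_xor_cancel_left]
  · simp

omit O in
theorem Legit.next {x : ℕ} (h : P.tm x = t + 1) (h1 : t < P.T)
    (h2 : t + 1 = P.T → ∀ j, 1 ≤ j → j ≤ t → P.Rl x (v j) = true) :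
    P.Legit (update v (t + 1) x) (t + 1) fun r => if x ≤ r then x else n r := by
  have t1 := G.one
  have c2 : v t < x := tm_lt (P := P) (by rw [h, G.tm t G.one le_rfl]; omega)
  refine ⟨by omega, h1, by rw [update_of_ne (by omega), G.st], fun j j1 j2 => ?_,
    fun e j j1 j2 => ?_, fun r k => ?_⟩
  · rcases j2.lt_or_eq with j2 | rfl
    · rw [update_of_ne j2.ne, G.tm j j1 (by omega)]
    · rwa [update_self]
  · rw [update_self, update_of_ne j2.ne]
    exact h2 e j j1 (by omega)
  · split_ifs with k1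
    · exact ⟨t + 1, by omega, le_rfl, by simp, by simpa, .inl rfl⟩
    · obtain ⟨j, j1, j2, j3, j4, j5⟩ := G.nd r k
      refine ⟨j, j1, by omega, by rwa [update_of_ne (by omega)], by rwa [update_of_ne (by omega)],
        .inr ?_⟩
      rcases j2.lt_or_eq with j2 | rfl
      · rw [update_of_ne (by omega)]; omega
      · rw [update_self]; omega

theorem Legit.step {p δ : ℕ} (h1 : p < P.N) (h2 : hp (P.walk n) p ^^^ δ < hp (P.walk n) p)
    (h3 : ¬ V P.N (P.B ^ 5) true (mv (P.walk n) p δ)) :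
    ∃ x, P.tm x = t + 1 ∧ t < P.T ∧ (t + 1 = P.T → ∀ j, 1 ≤ j → j ≤ t → P.Rl x (v j) = true) ∧
      mv (P.walk n) p δ = P.walk fun r => if x ≤ r then x else n r := by
  have l1 := O.L_pos
  have lL : P.L = P.M + 2 * P.B ^ 5 := rfl
  have t1 := G.one
  have c1 := G.lt_E O t1 le_rfl
  have c2 := G.s0_le t1 le_rfl
  have c3 := G.tm t t1 le_rfl
  have b1 := G.hp_lt O h1
  have b2 : δ < P.B ^ 5 := by simpa using O.xor_lt b1 (h2.trans b1)
  have m0 : mv (P.walk n) p δ 0 = 0 := by simp [mv, G.walk_zero]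
  have mN : mv (P.walk n) p δ P.N = P.Sg ^^^ (P.cd (v t) ^^^ δ) := by
    rw [mv, if_pos h1, G.walk_N O, Nat.xor_assoc]
  have z1 : ∀ r i, P.s0 ≤ r → r < P.E → i < P.L → p < P.gap r i →
      P.sg r i ≠ P.cd (n r) ^^^ δ := fun r i k1 k2 k3 k4 e =>
    h3 (V.zero m0 (by omega) (O.gap_lt k1 k2 k3).le (by
      rw [mv, if_pos k4, O.walk_gap n k1 k2 k3, e, Nat.xor_assoc, Nat.xor_self]))
  have z2 : ∀ r i, P.s0 ≤ r → r < P.E → i < P.L → P.gap r i ≤ p →
      P.sg r i ≠ P.Sg ^^^ (P.cd (v t) ^^^ δ ^^^ P.cd (n r)) := fun r i k1 k2 k3 k4 e =>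
    h3 (V.last m0 (by unfold gap; omega) (O.gap_lt k1 k2 k3) (by
      rw [mN, mv, if_neg (by omega), O.walk_gap n k1 k2 k3, e]; simp [Nat.xor_assoc]))
  obtain ⟨r, i, r1, i1, e⟩ := gap_surj l1 p
  have r2 : r < P.E ∨ (r = P.E ∧ i = 0) := by
    have := gap_le (r := P.E) (r' := r) (i := 1) (i' := i) O.s0_lt.le (by omega)
    have : P.gap P.E 1 = P.N + 1 := rfl
    omega
  obtain ⟨x, hx⟩ : ∃ x, x = if i ≤ P.M + P.B ^ 5 then r else r + 1 := ⟨_, rfl⟩
  have key := G.detect O (x := x) (δ := δ) (by split_ifs at hx <;> omega)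
    (by split_ifs at hx <;> omega) (by rintro rfl; simp at h2)
    (fun r' k1 k2 => by
      have k0 : P.s0 ≤ r' := by split_ifs at hx <;> omega
      have k3 := O.xor_lt (O.cd_lt (G.n_lt O k0).le) b2
      by_contra k
      refine z1 r' _ k0 k2 (by omega) ?_ (sg_full k3 k).2
      rw [← Nat.succ_le_iff, Nat.succ_eq_add_one, e]
      exact gap_le r1 i1 (by split_ifs at hx <;> omega))
    (fun r' k1 k2 => by
      have k3 := O.xor_lt O.Sg_lt (O.xor_lt (O.xor_lt (O.cd_lt c1.le) b2)
        (O.cd_lt (G.n_lt O k1).le))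
      by_contra k
      refine z2 r' _ k1 (by split_ifs at hx <;> omega) (by omega) ?_ (sg_full k3 k).1
      rw [← Nat.add_le_add_iff_right (n := 1), e]
      exact gap_le (i := _ + 1) k1 (by omega) (by split_ifs at hx <;> omega))
    (fun k => h3 (V.zero m0 (by omega) le_rfl (mN.trans k)))
  obtain ⟨u, u1, u2, u3, u4, u5, u6⟩ : ∃ u, P.tm u + 1 = P.tm x ∧ δ = P.cd u ^^^ P.cd x ∧
      P.s0 < x ∧ x < P.E ∧ n (x - 1) = u ∧ n x = v t := by
    rcases key with ⟨k1, k2, -, k4⟩ | ⟨k1, rfl, k4⟩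
    · have := tm_lt (P := P) (a := v t) (b := x) (by omega)
      exact ⟨_, by omega, k4, by omega, O.lt_E.2 (by omega),
        G.nd_eq t1 le_rfl (by omega) (.inl rfl), G.nd_eq t1 le_rfl (by omega) (.inl rfl)⟩
    · have := G.mono (i := t - 1) (by omega) (by omega) le_rfl
      have := G.tm (t - 1) (by omega) (by omega)
      have := G.s0_le (j := t - 1) (by omega) (by omega)
      exact ⟨_, by omega, k4, by omega, c1, G.nd_eq (by omega) (by omega) (by omega)
        (.inr (by rw [Nat.sub_add_cancel t1]; omega)), G.nd_eq t1 le_rfl le_rfl (.inl rfl)⟩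
  have u7 := tm_lt (P := P) (Nat.lt_of_succ_le u1.le)
  have u8 : δ / P.B ^ 4 = P.tm u ^^^ P.tm x := by
    rw [u2, O.top_xor, O.top_cd u4.le, O.top_cd (by omega)]
  split_ifs at hx with k <;> subst hx
  swap
  · refine absurd ?_ (z1 r (P.L - 1) r1 (by omega) (by omega) ?_)
    · rw [O.sg_last, u2, ← u5]; simp
    · rw [← Nat.succ_le_iff, Nat.succ_eq_add_one, e]
      exact gap_le r1 i1 (by omega)
  have a1 := Nat.mod_lt u O.hM
  rcases le_or_gt P.M i with k1 | k1
  · refine absurd ?_ (z2 x (u % P.M) r1 u4 (by omega) ?_)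
    · rw [sg, if_pos a1, ← u1, Nat.add_sub_cancel, Par.tm, Nat.div_add_mod', u6, ← u2,
        Nat.xor_comm (P.cd _) δ]
      simp
    · rw [← Nat.add_le_add_iff_right (n := 1), e]
      exact gap_le (i := _ + 1) r1 (by omega) (by omega)
  have h4 := Nat.div_le_div_right (c := P.B ^ 4) h2.le
  rcases i with _ | i
  · obtain rfl : p = P.gap x 0 - 1 := by omega
    rcases key with ⟨k1, k2, k3, rfl⟩ | ⟨k1, rfl, -⟩
    · exact ⟨x, k1, k2, k3, G.mv_next O k1⟩
    · have e0 := G.real O u3 u4 (u5 ▸ u1) u6 0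
      obtain ⟨b, hb⟩ := O.hB
      have := O.hE
      have : P.tm (v t) ≤ v t := Nat.div_le_self _ _
      rw [Nat.xor_zero] at e0
      rw [G.real O u3 u4 (u5 ▸ u1) u6, e0, u8, c3, Nat.xor_comm (P.tm u) t, Nat.xor_assoc,
        Nat.xor_xor_cancel_left, Nat.zero_div, Nat.xor_zero, hb, compl_xor (by omega),
        compl_xor (by omega)] at h4
      omega
  · obtain rfl : p = P.gap x i := by unfold gap at *; omega
    have a2 := fun j (hj : j < P.M) => O.top_cd
      ((tm_lt (P := P) (Nat.lt_of_succ_le (O.tail r1 hj).le)).trans u4).le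
    have a3 := O.tail r1 k1
    have a4 := O.tail r1 (show i < P.M by omega)
    have e0 : hp (P.walk n) (P.gap x i) / P.B ^ 4 = 0 := by
      rw [hp, e, O.walk_gap n r1 u4 i1, O.walk_gap n r1 u4 (by omega), sg, sg, if_pos k1,
        if_pos (by omega)]
      simp only [O.top_xor, a2 _ k1, a2 i (by omega)]
      rw [show P.tm ((P.tm x - 1) * P.M + i) = P.tm ((P.tm x - 1) * P.M + (i + 1)) by omega,
        Nat.xor_self]
    rw [O.top_xor, e0, u8, Nat.zero_xor, Nat.le_zero, Nat.xor_eq_zero_iff] at h4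
    omega

omit G in
theorem Ok.main (k : ℕ) : ∀ {t v n}, t + k = P.T → P.Legit v t n →
    (P.Q k t v → V P.N (P.B ^ 5) true (P.walk n)) ∧
    (¬ P.Q k t v → V P.N (P.B ^ 5) false (P.walk n)) := by
  induction k with
  | zero =>
    refine fun e G => ⟨False.elim, fun _ => V.lose G.walk_zero (G.safe O) fun p h1 δ h2 => ?_⟩
    by_contra h3
    obtain ⟨x, -, k, -⟩ := G.step O h1 h2 h3
    omega
  | succ k ih =>
    intro t v n e G
    refine ⟨fun ⟨x, k1, k2, k3⟩ => ?_,
      fun h => V.lose G.walk_zero (G.safe O) fun p h1 δ h2 => ?_⟩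
    · have c1 := G.s0_le G.one le_rfl
      have c3 := G.tm t G.one le_rfl
      have c2 := tm_lt (P := P) (a := v t) (b := x) (by omega)
      have c4 : x < P.E := O.lt_E.2 (by omega)
      have c5 := O.gap_lt (by omega) c4 O.L_pos
      have n1 : ∀ r, v t ≤ r → n r = v t := fun r h => G.nd_eq G.one le_rfl h (.inl rfl)
      have key := G.real O (by omega) c4 (by rw [n1 _ (by omega)]; omega) (n1 _ c2.le)
      refine V.win (p := P.gap x 0 - 1) (δ := P.cd (v t) ^^^ P.cd x) (by omega)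
        (Nat.lt_of_div_lt_div (c := P.B ^ 4) ?_) ?_
      · have e0 := key 0
        obtain ⟨b, hb⟩ := O.hB
        have := O.hE
        have : P.tm x ≤ x := Nat.div_le_self _ _
        rw [Nat.xor_zero] at e0
        rw [key, e0, O.top_xor, O.top_cd c4.le, O.top_cd (by omega), c3, k1, Nat.xor_assoc,
          Nat.xor_xor_cancel_left, Nat.zero_div, Nat.xor_zero, hb, compl_xor (by omega),
          compl_xor (by omega)]
        omega
      · rw [G.mv_next O k1]
        exact (ih (by omega) (G.next k1 (by omega) fun _ => k2 (by omega))).2 k3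
    · by_contra h3
      obtain ⟨x, k1, k2, k3, k4⟩ := G.step O h1 h2 h3
      refine h ⟨x, k1, fun _ => k3 (by omega), fun k5 => h3 ?_⟩
      rw [k4]
      exact (ih (by omega) (G.next k1 k2 k3)).1 k5

omit G in
theorem Ok.start : P.Legit (fun _ => P.s0) 1 fun _ => P.s0 :=
  ⟨le_rfl, O.hT, rfl, fun j _ _ => by rw [O.tm_s0]; omega, fun _ _ _ _ => by omega,
    fun _ h => ⟨1, le_rfl, le_rfl, rfl, h, .inl rfl⟩⟩

end Par

end Pool.Agent.Chomp.PS
end

-- merged part: Pool.Agent.Work.MP_ff0f6a_lc.PS.Sav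
section
/-!
The simulated game decides whether a family of automata accepts a common word (Savitch's
recursion played by two players).
-/

namespace Pool.Agent.Chomp.PS

open Function Pool.Agent.Lib.Cx

/-- the part of a history before time `s` -/
def tr (s : ℕ) (v : ℕ → ℕ) (j : ℕ) : ℕ := if j < s then v j else 0

/-- a last move exists -/
def Par.Vio (P : Par) (v : ℕ → ℕ) : Prop :=
  ∃ x, P.tm x = P.T ∧ ∀ j, 1 ≤ j → j < P.T → P.Rl x (v j) = true

theorem Par.tm_add {P : Par} (s : ℕ) {y : ℕ} (h : y < P.M) : P.tm (s * P.M + y) = s := pr_div h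

theorem Par.strat {P : Par} (g : ℕ → (ℕ → ℕ) → ℕ) (hg : ∀ s v, g s v < P.M) (k : ℕ) :
    ∀ t v, t + k + 1 = P.T → (∀ j, 1 ≤ j → j ≤ t → P.tm (v j) = j) → ∀ e < 2,
      (∀ v', (∀ j ≤ t, v' j = v j) → (∀ j, 1 ≤ j → j < P.T → P.tm (v' j) = j) →
        (∀ s, t < s → s < P.T → (s + t) % 2 = e → v' s = s * P.M + g s (tr s v')) →
        (P.Vio v' ↔ k % 2 ≠ e)) → (P.Q (k + 1) t v ↔ e = 1) := by
  induction k with
  | zero =>
    intro t v h1 h2 e he h
    have := h v (fun _ _ => rfl) (fun j a b => h2 j a (by omega)) fun s a b => by omega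
    rw [show e = 1 ↔ 0 % 2 ≠ e by omega, ← this]
    simp only [Par.Q, Par.Vio, ← h1, Nat.lt_succ_iff]
    simp
  | succ k ih =>
    intro t v h1 h2 e he h
    have key := fun x (hx : P.tm x = t + 1)
        (hx' : e = 1 → x = (t + 1) * P.M + g (t + 1) (tr (t + 1) v)) =>
      ih (t + 1) (update v (t + 1) x) (by omega) (fun j a b => by
        rcases b.lt_or_eq with b | rfl
        · rw [update_of_ne b.ne, h2 j a (by omega)]
        · rwa [update_self]) (1 - e) (by omega) fun v' a b c => by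
      have a1 : ∀ j ≤ t, v' j = v j := fun j k => by rw [a j (by omega), update_of_ne (by omega)]
      rw [h v' a1 b fun s s1 s2 s3 => ?_]
      · omega
      rcases (Nat.succ_le_of_lt s1).lt_or_eq with s4 | rfl
      · exact c s s4 s2 (by omega)
      · rw [a _ le_rfl, update_self, hx' (by omega)]
        congr 2
        funext j
        simp only [tr]
        split_ifs with k
        exacts [(a1 j (by omega)).symm, rfl]
    rw [Par.Q]
    refine ⟨fun ⟨x, a, _, c⟩ => ?_, fun k =>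
      ⟨_, Par.tm_add _ (hg (t + 1) (tr (t + 1) v)), by omega, ?_⟩⟩
    · by_contra k
      exact c ((key x a fun k' => absurd k' k).2 (by omega))
    · rw [key _ (Par.tm_add _ (hg _ _)) fun _ => rfl]; omega

theorem pair_lt {a b m : ℕ} (ha : a < m) (hb : b < m) : Nat.pair a b < m ^ 2 :=
  (Nat.pair_lt_max_add_one_sq a b).trans_le (Nat.pow_le_pow_left (by omega) 2)

namespace Sv

variable {g : ℕ} (F : Fam g) (x : List Bool)

/-- recursion depth -/
def D : ℕ := F.n x * F.S x
/-- rounds per level -/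
def W : ℕ := 3 * F.n x + 1
/-- range of the values -/
def M0 : ℕ := F.S x + g + 2
/-- bound on the components of a constraint -/
def mm : ℕ := D F x + F.n x + M0 F x
/-- choices per move -/
def M : ℕ := mm F x ^ 8 * M0 F x
/-- time at which state `k` of automaton `i` on level `l` is named -/
def tE (l i k : ℕ) : ℕ := 2 * (l * W F x + (3 * i + k)) + 2
/-- last time -/
def T : ℕ := tE F x (D F x + 1) 0 0 + 1
/-- one letter, or no letter -/
def stp (i s y : ℕ) : ℕ := ((List.finRange g)[y]?).elim s (F.δ x i s)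
/-- first position of a constraint -/
def J1 (l i b e : ℕ) : ℕ :=
  if l < D F x then tE F x l i (b + e) else tE F x (if l = D F x then l else 0) i 0
/-- second position of a constraint -/
def J2 (l i e : ℕ) : ℕ :=
  if l < D F x then tE F x (l + 1) i (2 * e) else tE F x (if l = D F x then l else 0) i 2
/-- third position of a constraint -/
def J3 (l : ℕ) : ℕ := if l < D F x then tE F x l (F.n x) 0 + 1 else tE F x (D F x + 1) 0 0
/-- a constraint is violated by three values -/
def bad (l i b e y1 y2 y3 : ℕ) : Bool := decide (i < F.n x ∧ b ≤ 1 ∧ e ≤ 1 ∧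
  ((l < D F x ∧ min y3 1 = b ∧ y1 ≠ y2) ∨ (l = D F x ∧ y2 ≠ stp F x i y1 y3) ∨
    (D F x < l ∧ (y1 ≠ F.st x i ∨ F.acc x i y2 = false))))
/-- the value `y` at time `j` agrees with the named violation -/
def rl (l i b e y1 y2 y3 j y : ℕ) : Bool := bad F x l i b e y1 y2 y3 &&
  decide ((j = J1 F x l i b e → y = y1) ∧ (j = J2 F x l i e → y = y2) ∧ (j = J3 F x l → y = y3))
/-- the same with the violation given by one number -/
def rc (c j y : ℕ) : Bool :=
  rl F x c.unpair.1.unpair.1.unpair.1 c.unpair.1.unpair.1.unpair.2 c.unpair.1.unpair.2.unpair.1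
    c.unpair.1.unpair.2.unpair.2 c.unpair.2.unpair.1.unpair.1 c.unpair.2.unpair.1.unpair.2
    c.unpair.2.unpair.2 j y
/-- the parameters of the game -/
def par : Par where
  M := M F x
  T := T F x
  B := 2 ^ ((T F x + 1) * M F x + 1).size
  Rl w u := rc F x (w % M F x) (u / M F x) (u % M0 F x)

theorem M0_le : M0 F x ≤ M F x :=
  Nat.le_mul_of_pos_left _ (Nat.pow_pos (by unfold mm M0; omega))

theorem ok : (par F x).Ok :=
  ⟨lt_of_lt_of_le (by unfold M0; omega) (M0_le F x), Nat.succ_pos _, ⟨_, rfl⟩, Nat.lt_size_self _⟩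

variable {F x}

theorem tE_lt {l l' i k : ℕ} (h : l < l') (hi : 3 * i + k ≤ 3 * F.n x) :
    tE F x l i k + 1 < tE F x l' 0 0 := by
  have := Nat.mul_le_mul_right (W F x) (Nat.succ_le_of_lt h)
  rw [Nat.succ_mul] at this
  unfold tE W at *
  omega

theorem tE_div {l i k : ℕ} (hi : 3 * i + k ≤ 3 * F.n x) {e : ℕ} (he : e < 2) :
    ((tE F x l i k + e) / 2 - 1) / W F x = l ∧ ((tE F x l i k + e) / 2 - 1) % W F x = 3 * i + k := by
  rw [show (tE F x l i k + e) / 2 - 1 = l * W F x + (3 * i + k) by unfold tE; omega]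
  exact ⟨pr_div (by unfold W; omega), pr_mod (by unfold W; omega)⟩

theorem val_add (s : ℕ) {y : ℕ} (h : y < M0 F x) : (s * (par F x).M + y) % M0 F x = y := by
  rw [show (par F x).M = mm F x ^ 8 * M0 F x from rfl, ← Nat.mul_assoc, pr_mod h]

theorem vio_iff {v : ℕ → ℕ} (hv : ∀ j, 1 ≤ j → j < T F x → (par F x).tm (v j) = j) :
    (par F x).Vio v ↔ ∃ l ≤ D F x + 1, ∃ i b e, bad F x l i b e (v (J1 F x l i b e) % M0 F x)
      (v (J2 F x l i e) % M0 F x) (v (J3 F x l) % M0 F x) = true := by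
  have hv' : ∀ j, 1 ≤ j → j < T F x → v j / M F x = j := hv
  constructor
  · rintro ⟨w, -, h⟩
    simp only [par, rc, rl, Bool.and_eq_true, decide_eq_true_eq] at h
    generalize (w % M F x).unpair.1.unpair.1.unpair.1 = l at h
    generalize (w % M F x).unpair.1.unpair.1.unpair.2 = i at h
    generalize (w % M F x).unpair.1.unpair.2.unpair.1 = b at h
    generalize (w % M F x).unpair.1.unpair.2.unpair.2 = e at h
    have h1 := (h 1 le_rfl (by unfold T tE; omega)).1
    have h2 := h1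
    simp only [bad, decide_eq_true_eq] at h2
    have p0 : ∀ l i k, 1 ≤ tE F x l i k := fun _ _ _ => by unfold tE; omega
    have p1 : ∀ l i k, l ≤ D F x → 3 * i + k ≤ 3 * F.n x → tE F x l i k + 1 < T F x :=
      fun l i k a b => (tE_lt (Nat.lt_succ_of_le a) b).trans (Nat.lt_succ_self _)
    have j1 : 1 ≤ J1 F x l i b e ∧ J1 F x l i b e < T F x := by
      unfold J1; split_ifs <;> exact ⟨p0 _ _ _, by
        refine Nat.lt_of_succ_lt (p1 _ _ _ ?_ ?_) <;> omega⟩
    have j2 : 1 ≤ J2 F x l i e ∧ J2 F x l i e < T F x := by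
      unfold J2; split_ifs <;> exact ⟨p0 _ _ _, by
        refine Nat.lt_of_succ_lt (p1 _ _ _ ?_ ?_) <;> omega⟩
    have j3 : 1 ≤ J3 F x l ∧ J3 F x l < T F x := by
      unfold J3; split_ifs
      exacts [⟨by omega, p1 _ _ _ (by omega) (by omega)⟩, ⟨p0 _ _ _, Nat.lt_succ_self _⟩]
    rw [← (h _ j1.1 j1.2).2.1 (hv' _ j1.1 j1.2), ← (h _ j2.1 j2.2).2.2.1 (hv' _ j2.1 j2.2),
      ← (h _ j3.1 j3.2).2.2.2 (hv' _ j3.1 j3.2)] at h1
    rcases le_or_gt l (D F x) with k | k
    · exact ⟨l, by omega, i, b, e, h1⟩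
    · refine ⟨D F x + 1, le_rfl, i, b, e, ?_⟩
      simpa [bad, J1, J2, k, k.ne', k.le.not_gt] using h1
  · rintro ⟨l, h1, i, b, e, h⟩
    have h2 := h
    simp only [bad, decide_eq_true_eq] at h2
    have m0 : 2 ≤ M0 F x := by unfold M0; omega
    have m1 : ∀ y, y % M0 F x < mm F x := fun y =>
      (Nat.mod_lt _ (by omega)).trans_le (Nat.le_add_left _ _)
    have m2 : ∀ y, y % M0 F x < mm F x ^ 2 := fun y =>
      (m1 y).trans_le (Nat.le_self_pow (by omega) _)
    have c1 := pair_lt (pair_lt (pair_lt (a := l) (b := i) (m := mm F x) (by unfold mm; omega)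
      (by unfold mm; omega)) (pair_lt (a := b) (b := e) (by unfold mm; omega) (by unfold mm; omega)))
      (pair_lt (pair_lt (m1 (v (J1 F x l i b e))) (m1 (v (J2 F x l i e)))) (m2 (v (J3 F x l))))
    rw [← pow_mul, ← pow_mul] at c1
    have c2 := c1.trans_le (Nat.le_mul_of_pos_right (m := M0 F x) _ (by omega))
    refine ⟨_, Par.tm_add (P := par F x) _ c2, fun j j1 j2 => ?_⟩
    simp only [par, rc, rl, pr_mod (B := M F x) c2, Nat.unpair_pair, h, hv' j j1 j2,
      Bool.true_and, decide_eq_true_eq]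
    exact ⟨fun k => by rw [k], fun k => by rw [k], fun k => by rw [k]⟩

theorem reject (h : ¬ ∃ w, ∀ i < F.n x, F.Acc x i w) :
    ¬ (par F x).Q (T F x - 1) 1 fun _ => (par F x).s0 := by
  classical
  have m0 : 2 ≤ M0 F x := by unfold M0; omega
  let Re : (ℕ → ℕ) → ℕ → ℕ → ℕ → Prop := fun v l k k' => ∃ w : List (Fin g), ∀ i < F.n x,
    v (tE F x l i k') % M0 F x = w.foldl (F.δ x i) (v (tE F x l i k) % M0 F x)
  have key := Par.strat (P := par F x) (fun s v => if Re v ((s / 2 - 1) / W F x) 0 1 then 1 else 0)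
    (fun s v => lt_of_lt_of_le (by split_ifs <;> omega) (M0_le F x)) (T F x - 2) 1
    (fun _ => (par F x).s0) (by unfold par T tE; simp; omega)
    (fun j _ _ => by rw [(ok F x).tm_s0]; omega) 0 (by omega) fun v _ hv hs => by
      rw [vio_iff hv, iff_true_right (by unfold T tE; omega)]
      by_contra k
      simp only [bad, decide_eq_true_eq, not_exists, not_and, not_or, not_not] at k
      have inv : ∀ l ≤ D F x, ¬ Re v l 0 2 := by
        intro l
        induction l with
        | zero =>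
          refine fun _ ⟨w, hw⟩ => h ⟨w, fun i hi => ?_⟩
          have := (k (D F x + 1) le_rfl i 0 0 hi (by omega) (by omega)).2.2 (by omega)
          simp only [J1, J2, show ¬ D F x + 1 < D F x by omega, show D F x + 1 ≠ D F x by omega,
            if_false] at this
          rw [Fam.Acc, ← this.1, ← hw i hi]
          simpa using this.2
        | succ l ih =>
          rintro hl ⟨w, hw⟩
          have hl' : l < D F x := hl
          have e := hs (tE F x l (F.n x) 0 + 1) (by unfold tE; omega)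
            ((tE_lt (Nat.lt_succ_of_le hl'.le) le_rfl).trans (Nat.lt_succ_self _))
            (by unfold tE; omega)
          have e1 : Re (tr (tE F x l (F.n x) 0 + 1) v) l 0 1 ↔ Re v l 0 1 :=
            exists_congr fun w => forall₂_congr fun i hi => by
              simp only [tr]
              rw [if_pos (by unfold tE; omega), if_pos (by unfold tE; omega)]
          rw [(tE_div le_rfl (by omega)).1, e1] at e
          have k1 := fun i hi b hb c hc => (k l (by omega) i b c hi hb hc).1 hl'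
          simp only [J1, J2, J3, hl', if_true, e] at k1
          split_ifs at k1 with r <;> rw [val_add _ (by omega)] at k1
          · obtain ⟨w', hw'⟩ := r
            refine ih hl'.le ⟨w' ++ w, fun i hi => ?_⟩
            rw [List.foldl_append, ← hw' i hi, k1 i hi 1 le_rfl 0 (by omega) rfl,
              k1 i hi 1 le_rfl 1 le_rfl rfl, hw i hi]
          · refine r ⟨w, fun i hi => ?_⟩
            rw [k1 i hi 0 (by omega) 0 (by omega) rfl, k1 i hi 0 (by omega) 1 le_rfl rfl, hw i hi]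
      refine inv _ le_rfl ⟨((List.finRange g)[v (J3 F x (D F x)) % M0 F x]?).toList, fun i hi => ?_⟩
      have := (k (D F x) (by omega) i 0 0 hi (by omega) (by omega)).2.1 rfl
      simp only [J1, J2, lt_irrefl, if_false, if_true, stp] at this
      rw [this]
      cases (List.finRange g)[v (J3 F x (D F x)) % M0 F x]? <;> rfl
  rw [show T F x - 1 = T F x - 2 + 1 by unfold T tE; omega, key]
  omega

theorem accept (h : ∃ w, ∀ i < F.n x, F.Acc x i w) :
    (par F x).Q (T F x - 1) 1 fun _ => (par F x).s0 := by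
  classical
  have m0 : F.S x + g + 2 = M0 F x := rfl
  let C := Fin (F.n x) → Fin (F.S x)
  let Ed : C → C → Prop := fun U V => ∃ y < M0 F x, ∀ i, (V i : ℕ) = stp F x i (U i) y
  obtain ⟨U0, V0, h1, h2, h3⟩ : ∃ U V : C, (∀ i, (U i : ℕ) = F.st x i) ∧
      (∀ i : Fin (F.n x), F.acc x i (V i) = true) ∧ Pw Ed (2 ^ D F x) U V := by
    obtain ⟨w, hw⟩ := h
    let R : List (Fin g) → C := fun w i => ⟨_, F.foldl_lt i.2 w (F.st_lt _ _ i.2)⟩
    refine ⟨R [], R w, fun _ => rfl, fun i => hw i i.2, (Pw.of_rtg Finset.univ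
      (fun _ _ _ _ => Finset.mem_univ _) (Finset.mem_univ _) ?_).mono ?_⟩
    · clear hw
      induction w using List.reverseRecOn with
      | nil => exact .refl
      | append_singleton w γ ih =>
        exact ih.tail ⟨γ, by omega, fun i => by simp [R, stp]⟩
    · simp only [C, Finset.card_univ, Fintype.card_pi, Fintype.card_fin, Finset.prod_const, D]
      rw [Nat.mul_comm, pow_mul]
      exact Nat.pow_le_pow_left Nat.lt_two_pow_self.le _
  have : ∀ d U V, ∃ Z, Pw Ed (2 ^ (d + 1)) U V → Pw Ed (2 ^ d) U Z ∧ Pw Ed (2 ^ d) Z V :=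
    fun d U V => by
      by_cases k : Pw Ed (2 ^ (d + 1)) U V
      · rw [pow_succ, Nat.mul_two] at k
        exact (k.split _).imp fun _ h _ => h
      · exact ⟨U, fun h => absurd h k⟩
  choose mid hmid using this
  have : ∀ U V, ∃ y < M0 F x, Pw Ed 1 U V → ∀ i, (V i : ℕ) = stp F x i (U i) y := fun U V => by
    by_cases k : Ed U V
    · exact k.imp fun _ h => ⟨h.1, fun _ => h.2⟩
    · refine ⟨g, by omega, ?_⟩
      rintro (rfl | ⟨_, rfl, h⟩)
      exacts [fun i => by simp [stp], absurd h k]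
  choose lett hl1 hl2 using this
  let I : (ℕ → ℕ) → ℕ → C × C := fun v l => Nat.rec (U0, V0) (fun l p =>
    if v (tE F x l (F.n x) 0 + 1) % M0 F x = 0 then (p.1, mid (D F x - (l + 1)) p.1 p.2)
    else (mid (D F x - (l + 1)) p.1 p.2, p.2)) l
  have i1 : ∀ v l, I v (l + 1) = if v (tE F x l (F.n x) 0 + 1) % M0 F x = 0 then
      ((I v l).1, mid (D F x - (l + 1)) (I v l).1 (I v l).2)
      else (mid (D F x - (l + 1)) (I v l).1 (I v l).2, (I v l).2) := fun _ _ => rfl
  have i2 : ∀ v l, l ≤ D F x → Pw Ed (2 ^ (D F x - l)) (I v l).1 (I v l).2 := fun v l => by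
    induction l with
    | zero => exact fun _ => h3
    | succ l ih =>
      intro hl
      have := hmid (D F x - (l + 1)) _ _ (by
        rw [show D F x - (l + 1) + 1 = D F x - l by omega]; exact ih (by omega))
      rw [i1]
      split_ifs
      exacts [this.1, this.2]
  have i3 : ∀ v s l, tE F x l 0 0 ≤ s → I (tr s v) l = I v l := fun v s l => by
    induction l with
    | zero => exact fun _ => rfl
    | succ l ih =>
      intro hl
      have := tE_lt (F := F) (x := x) (i := F.n x) (k := 0) (Nat.lt_add_one l) le_rfl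
      rw [i1, i1, ih (by unfold tE at *; omega), tr, if_pos (this.trans_le hl)]
  let tri : (ℕ → ℕ) → ℕ → ℕ → C := fun v l k => if k = 0 then (I v l).1 else
    if k = 1 then mid (D F x - (l + 1)) (I v l).1 (I v l).2 else (I v l).2
  let G : ℕ → ℕ → (ℕ → ℕ) → ℕ := fun l r v => if l ≤ D F x then
    (if h : r / 3 < F.n x then tri v l (r % 3) ⟨r / 3, h⟩ else 0)
    else lett (I v (D F x)).1 (I v (D F x)).2
  have g1 : ∀ l r v, G l r v < M0 F x := fun l r v => by
    simp only [G]
    split_ifs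
    exacts [(Fin.is_lt _).trans_le (by omega), by omega, hl1 _ _]
  have key := Par.strat (P := par F x) (fun s => G ((s / 2 - 1) / W F x) ((s / 2 - 1) % W F x))
    (fun s v => (g1 _ _ _).trans_le (M0_le F x)) (T F x - 2) 1
    (fun _ => (par F x).s0) (by unfold par T tE; simp; omega)
    (fun j _ _ => by rw [(ok F x).tm_s0]; omega) 1 (by omega) fun v _ hv hs => by
      rw [vio_iff hv, iff_false_right (by unfold T tE; omega)]
      have e1 : ∀ l ≤ D F x, ∀ i (hi : i < F.n x), ∀ k ≤ 2,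
          v (tE F x l i k) % M0 F x = tri v l k ⟨i, hi⟩ := fun l hl i hi k hk => by
        have t1 := tE_div (F := F) (x := x) (l := l) (i := i) (k := k) (by omega) (e := 0) (by omega)
        rw [Nat.add_zero] at t1
        rw [hs _ (by unfold tE; omega) (Nat.lt_of_succ_lt
          ((tE_lt (Nat.lt_succ_of_le hl) (by omega)).trans (Nat.lt_succ_self _)))
          (by unfold tE; omega), val_add _ (g1 _ _ _), t1.1, t1.2]
        simp only [G, tri, hl, if_true, show (3 * i + k) / 3 = i by omega,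
          show (3 * i + k) % 3 = k by omega, hi, dif_pos,
          i3 v (tE F x l i k) l (by unfold tE; omega)]
      rintro ⟨l, -, i, b, e, k⟩
      simp only [bad, decide_eq_true_eq] at k
      obtain ⟨hi, hb, he, ⟨k1, k2, k3⟩ | ⟨rfl, k3⟩ | ⟨k1, k3⟩⟩ := k
      · simp only [J1, J2, J3, k1, if_true] at k2 k3
        rw [e1 _ k1.le _ hi _ (by omega), e1 _ k1 _ hi _ (by omega)] at k3
        apply k3
        simp only [tri, i1]
        by_cases z : v (tE F x l (F.n x) 0 + 1) % M0 F x = 0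
        · obtain rfl : b = 0 := by omega
          rcases (show e = 0 ∨ e = 1 by omega) with rfl | rfl <;> simp [z]
        · obtain rfl : b = 1 := by omega
          rcases (show e = 0 ∨ e = 1 by omega) with rfl | rfl <;> simp [z]
      · simp only [J1, J2, J3, lt_irrefl, if_true, if_false] at k3
        have t1 := tE_div (F := F) (x := x) (l := D F x + 1) (i := 0) (k := 0) (by omega) (e := 0)
          (by omega)
        rw [Nat.add_zero] at t1
        rw [e1 _ le_rfl _ hi _ (by omega), e1 _ le_rfl _ hi _ (by omega),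
          hs _ (by unfold tE; omega) (Nat.lt_succ_self _) (by unfold tE; omega),
          val_add _ (g1 _ _ _), t1.1] at k3
        apply k3
        have := tE_lt (F := F) (x := x) (i := 0) (k := 0) (D F x).lt_succ_self (by omega)
        simp only [G, tri, show ¬ D F x + 1 ≤ D F x by omega, if_false, if_true,
          i3 v (tE F x (D F x + 1) 0 0) (D F x) (Nat.le_of_succ_le this.le)]
        exact hl2 _ _ (by simpa using i2 v _ le_rfl) ⟨i, hi⟩
      · simp only [J1, J2, k1.ne', k1.le.not_gt, if_false] at k3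
        rw [e1 _ (by omega) _ hi _ (by omega), e1 _ (by omega) _ hi _ (by omega)] at k3
        rcases k3 with k3 | k3
        · exact k3 (h1 ⟨i, hi⟩)
        · exact absurd ((h2 ⟨i, hi⟩).symm.trans k3) (by simp)
  rw [show T F x - 1 = T F x - 2 + 1 by unfold T tE; omega, key]

end Sv

end Pool.Agent.Chomp.PS
end

-- merged part: Pool.Agent.Work.MP_ff0f6a_lc.PS.Red
section
/-!
The position is computed in logarithmic space, and its winning first moves decide the language.
-/

namespace Pool.Agent.Chomp.PS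

open Function Pool.Agent.Lib.Cx

variable {α : Type} [Obj α]

@[fun_prop] theorem ls_pow_size {f : α → ℕ} (hf : LS f) : LS fun a => 2 ^ (f a).size := by
  have key : ∀ i : ℕ, (Nat.rec 1 (fun _ acc => 2 * acc) i : ℕ) = 2 ^ i := fun i => by
    induction i with
    | zero => rfl
    | succ i ih => simp only [ih, pow_succ']
  exact (LS.natRec (n := fun a => (f a).size) (s := fun _ => 1) (t := fun q => 2 * q.1)
    (by fun_prop) (by fun_prop) (by fun_prop) f hf fun a i hi => by
      rw [key]; exact Nat.lt_size.1 hi).congr fun a => key _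

@[fun_prop] theorem ls_xor {f g : α → ℕ} (hf : LS f) (hg : LS g) : LS fun a => f a ^^^ g a := by
  have : LS fun a => findLt (2 ^ (f a + g a).size) fun z =>
      decide (∀ i < 2 ^ (f a + g a).size, z.testBit i = ((f a).testBit i ^^ (g a).testBit i)) := by
    fun_prop
  refine this.congr fun a => ?_
  have h0 := Nat.lt_size_self (f a + g a)
  have h1 : f a ^^^ g a < 2 ^ (f a + g a).size := Nat.xor_lt_two_pow (by omega) (by omega)
  refine findLt_eq h1.le (fun _ => by simp) fun z hz => ?_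
  refine decide_eq_false fun h => hz.ne (Nat.eq_of_testBit_eq fun i => ?_)
  rcases lt_or_ge i (2 ^ (f a + g a).size) with k | k
  · rw [h i k, Nat.testBit_xor]
  · have := Nat.lt_two_pow_self (n := i)
    rw [Nat.testBit_lt_two_pow (by omega), Nat.testBit_lt_two_pow (by omega)]

@[fun_prop] theorem ls_Y {n h p : α → ℕ} (hn : LS n) (hh : LS h) (hp : LS p) :
    LS fun a => Y (n a) (h a) (p a) := by unfold Y; fun_prop
@[fun_prop] theorem ls_cy {n h p : α → ℕ} (hn : LS n) (hh : LS h) (hp : LS p) :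
    LS fun a => cy (n a) (h a) (p a) := by unfold cy; fun_prop

namespace Sv

variable {g : ℕ} (F : Fam g) {f : α → List Bool}

@[fun_prop] theorem ls_D (hf : LS f) : LS fun a => D F (f a) := by unfold D; fun_prop
@[fun_prop] theorem ls_M0 (hf : LS f) : LS fun a => M0 F (f a) := by unfold M0; fun_prop
@[fun_prop] theorem ls_M (hf : LS f) : LS fun a => M F (f a) := by unfold M mm; fun_prop
@[fun_prop] theorem ls_tE {l i k : α → ℕ} (hf : LS f) (hl : LS l) (hi : LS i) (hk : LS k) :
    LS fun a => tE F (f a) (l a) (i a) (k a) := by unfold tE W; fun_prop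
@[fun_prop] theorem ls_T (hf : LS f) : LS fun a => T F (f a) := by unfold T; fun_prop
@[fun_prop] theorem ls_stp {l i k : α → ℕ} (hf : LS f) (hl : LS l) (hi : LS i) (hk : LS k) :
    LS fun a => stp F (f a) (l a) (i a) (k a) := by unfold stp; fun_prop

@[fun_prop] theorem ls_J1 {l i b e : α → ℕ} (hf : LS f) (hl : LS l) (hi : LS i) (hb : LS b)
    (he : LS e) : LS fun a => J1 F (f a) (l a) (i a) (b a) (e a) := by unfold J1; fun_prop
@[fun_prop] theorem ls_J2 {l i e : α → ℕ} (hf : LS f) (hl : LS l) (hi : LS i)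
    (he : LS e) : LS fun a => J2 F (f a) (l a) (i a) (e a) := by unfold J2; fun_prop
@[fun_prop] theorem ls_J3 {l : α → ℕ} (hf : LS f) (hl : LS l) : LS fun a => J3 F (f a) (l a) := by
  unfold J3; fun_prop
@[fun_prop] theorem ls_bad {l i b e x y z : α → ℕ} (hf : LS f) (hl : LS l) (hi : LS i) (hb : LS b)
    (he : LS e) (hx : LS x) (hy : LS y) (hz : LS z) :
    LS fun a => bad F (f a) (l a) (i a) (b a) (e a) (x a) (y a) (z a) := by unfold bad; fun_prop
@[fun_prop] theorem ls_rl {l i b e x y z j w : α → ℕ} (hf : LS f) (hl : LS l) (hi : LS i)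
    (hb : LS b) (he : LS e) (hx : LS x) (hy : LS y) (hz : LS z) (hj : LS j) (hw : LS w) :
    LS fun a => rl F (f a) (l a) (i a) (b a) (e a) (x a) (y a) (z a) (j a) (w a) := by
  unfold rl; fun_prop
@[fun_prop] theorem ls_rc {c j y : α → ℕ} (hf : LS f) (hc : LS c) (hj : LS j) (hy : LS y) :
    LS fun a => rc F (f a) (c a) (j a) (y a) := by unfold rc; fun_prop

/-- the code of a node, as a function of the input -/
def cd (x : List Bool) (v : ℕ) : ℕ := (par F x).cd v
/-- admissible pairs, as a function of the input -/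
def prb (x : List Bool) (r u w : ℕ) : Bool := decide (r < w ∧ (r + 1) / M F x ≤ u / M F x + 1 ∧
  u / M F x < w / M F x ∧ (w / M F x = T F x → rc F x (w % M F x) (u / M F x) (u % M0 F x) = true))
/-- admissible changes on the right, as a function of the input -/
def inb (x : List Bool) (r y u : ℕ) : Bool :=
  decide (∃ w < (T F x + 1) * M F x, prb F x r u w = true ∧ y = cd F x u ^^^ cd F x w)
/-- admissible values, as a function of the input -/
def okb (x : List Bool) (r y : ℕ) : Bool := decide ((par F x).OK r y)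
/-- the base, as a function of the input -/
def B (x : List Bool) : ℕ := (par F x).B
/-- the walk, as a function of the input -/
def wk (x : List Bool) (q : ℕ) : ℕ := (par F x).wk q
/-- the number of heaps, as a function of the input -/
def N (x : List Bool) : ℕ := (par F x).N

@[fun_prop] theorem ls_B (hf : LS f) : LS fun a => B F (f a) := by unfold B par; fun_prop

@[fun_prop] theorem ls_cd {v : α → ℕ} (hf : LS f) (hv : LS v) : LS fun a => cd F (f a) (v a) := by
  have : LS fun a => (v a / M F (f a) * B F (f a) ^ 4) ^^^ ((v a + 1) *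
      if v a / M F (f a) = T F (f a) then B F (f a) ^ 3
      else if v a / M F (f a) % 2 = 0 then B F (f a) else B F (f a) ^ 2) := by fun_prop
  refine this.congr fun a => ?_
  change _ = (v a / M F (f a) * B F (f a) ^ 4) ^^^ ((v a + 1) * B F (f a) ^
    if v a / M F (f a) = T F (f a) then 3 else v a / M F (f a) % 2 + 1)
  split_ifs with h1 h2
  · rfl
  · rw [h2, Nat.zero_add, pow_one]
  · rw [show v a / M F (f a) % 2 = 1 by omega]

@[fun_prop] theorem ls_prb {r u w : α → ℕ} (hf : LS f) (hr : LS r) (hu : LS u) (hw : LS w) :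
    LS fun a => prb F (f a) (r a) (u a) (w a) := by unfold prb; fun_prop

@[fun_prop] theorem ls_inb {r y u : α → ℕ} (hf : LS f) (hr : LS r) (hy : LS y) (hu : LS u) :
    LS fun a => inb F (f a) (r a) (y a) (u a) :=
  LS.dec_exists_lt (by fun_prop) (LS.dec_and (LS.decide_eq_true (by fun_prop))
    (LS.decide_eq_nat (by fun_prop) (by fun_prop)))

@[fun_prop] theorem ls_okb {r y : α → ℕ} (hf : LS f) (hr : LS r) (hy : LS y) :
    LS fun a => okb F (f a) (r a) (y a) := by
  have : LS fun a => decide ((∃ u ≤ r a, 2 * M F (f a) - 1 ≤ u ∧ y a = cd F (f a) u) ∨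
      ((B F (f a) ^ 5 - 1) ^^^ y a = 0 ∨
        ∃ u ≤ r a, inb F (f a) (r a) ((B F (f a) ^ 5 - 1) ^^^ y a) u = true)) :=
    LS.dec_or (LS.dec_exists_le hr (LS.dec_and (LS.decide_le (by fun_prop) (by fun_prop))
      (LS.decide_eq_nat (by fun_prop) (by fun_prop)))) (LS.dec_or
        (LS.decide_eq_nat (by fun_prop) (by fun_prop))
        (LS.dec_exists_le hr (LS.decide_eq_true (by fun_prop))))
  refine this.congr fun a => decide_eq_decide.2 ?_
  simp only [inb, prb, decide_eq_true_eq]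
  rfl

@[fun_prop] theorem ls_N (hf : LS f) : LS fun a => N F (f a) := by
  change LS fun a => ((T F (f a) + 1) * M F (f a) - (2 * M F (f a) - 1)) *
    (M F (f a) + 2 * B F (f a) ^ 5) + 1
  fun_prop

@[fun_prop] theorem ls_wk {q : α → ℕ} (hf : LS f) (hq : LS q) : LS fun a => wk F (f a) (q a) := by
  have h : LS fun p : List Bool × ℕ × ℕ => if p.2.2 < M F p.1 then (B F p.1 ^ 5 - 1) ^^^
      (cd F p.1 ((p.2.1 / M F p.1 - 1) * M F p.1 + p.2.2) ^^^ cd F p.1 p.2.1)
      else if okb F p.1 p.2.1 ((p.2.2 - M F p.1) % B F p.1 ^ 5) = true then cd F p.1 (p.2.1 + 1)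
      else (p.2.2 - M F p.1) % B F p.1 ^ 5 := by fun_prop
  have h1 : LS fun p : List Bool × ℕ × ℕ => (par F p.1).sg p.2.1 p.2.2 :=
    h.congr fun p => by simp only [okb, decide_eq_true_eq]; rfl
  have h2 := LS.comp _ (fun a => (f a, (q a - 1) / (M F (f a) + 2 * B F (f a) ^ 5) +
    (2 * M F (f a) - 1), (q a - 1) % (M F (f a) + 2 * B F (f a) ^ 5))) h1 (by fun_prop)
  exact LS.ite (f := fun a => cd F (f a) (2 * M F (f a) - 1)) (by fun_prop) (by fun_prop)
    (LS.ite (p := fun a => q a = N F (f a)) (f := fun a => B F (f a) ^ 5 - 1) (by fun_prop)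
      (by fun_prop) h2)

/-- the table of the position -/
def tb (x : List Bool) (N H i j : ℕ) : Bool := decide ((i = 2 * N + 1 ∧ j = N + N * H) ∨
  (N ≤ i ∧ i < 2 * N ∧ Y N H (i - N) ≤ j ∧
    j < Y N H (i - N) + (wk F x (i - N) ^^^ wk F x (i - N + 1))) ∨
  ((i ≠ N ∧ 1 ≤ i ∧ i ≤ 2 * N) ∧ j = cy N H i))

@[fun_prop] theorem ls_tb {n h i j : α → ℕ} (hf : LS f) (hn : LS n) (hh : LS h) (hi : LS i)
    (hj : LS j) : LS fun a => tb F (f a) (n a) (h a) (i a) (j a) := by unfold tb; fun_prop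

end Sv

/-- the cells of the position, with the top cell of the board -/
def Cell (N H : ℕ) (h : ℕ → ℕ) (c : ℕ × ℕ) : Prop :=
  c = (2 * N + 1, N + N * H) ∨ Mem N H h (· ∈ full N) c

theorem top_spec {N H : ℕ} {h : ℕ → ℕ} (hH : 0 < H) (hh : ∀ p < N, h p ≤ H) :
    ∃ S, (∀ c, c ∈ S ↔ Cell N H h c) ∧ S ⊆ board (2 * N + 1) (N + N * H) ∧
      Rel N H (bite S (2 * N + 1, N + N * H)) h (full N) := by
  classical
  have key : ∀ c, Mem N H h (· ∈ full N) c → 1 ≤ c.1 ∧ c.1 ≤ 2 * N ∧ c.2 ≤ N + N * H := by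
    have e : ∀ p, 0 < N → Y N H p + H ≤ N + N * H := fun p k => by
      have := Nat.mul_le_mul_right H (show N - 1 - p + 1 ≤ N by omega)
      rw [Nat.add_one_mul] at this
      unfold Y; omega
    rintro c (k | ⟨k1, k2⟩)
    · have := e (c.1 - N) (by omega)
      have := hh (c.1 - N) (by omega)
      omega
    · have := mem_full.1 k1
      have := e (c.1 - 1) (by omega)
      unfold cy at k2
      split_ifs at k2 <;> omega
  have h1 : ∀ c, c ∈ (board (2 * N + 1) (N + N * H)).filter (Cell N H h) ↔ Cell N H h c :=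
    fun c => by
      rw [Finset.mem_filter, and_iff_right_iff_imp]
      rintro (rfl | k)
      · simp [board]
      · have := key c k
        simp only [board, Finset.mem_erase, Finset.mem_product, Finset.mem_range, Ne, Prod.ext_iff]
        omega
  refine ⟨_, h1, Finset.filter_subset _ _, fun c => ?_, hh, fun q k => ?_, hH⟩
  · rw [bite, Finset.mem_filter, h1]
    refine ⟨fun ⟨a, b⟩ => a.resolve_left fun e => b (by simp [e]), fun k => ⟨.inr k, ?_⟩⟩
    have := key c k
    simp only; omega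
  · have := mem_full.1 k
    omega

theorem bite_top {m n : ℕ} {S : Finset (ℕ × ℕ)} (hS : S ⊆ board m n) {c : ℕ × ℕ} (hc : c ∈ S) :
    bite (bite S (m, n)) c = bite S c := by
  have := hS hc
  simp only [board, Finset.mem_erase, Finset.mem_product, Finset.mem_range] at this
  ext d
  simp only [bite, Finset.mem_filter]
  constructor
  · exact fun h => ⟨h.1.1, h.2⟩
  · exact fun h => ⟨⟨h.1, fun k => h.2 (by omega)⟩, h.2⟩

theorem mem_bite_top {m n : ℕ} {S : Finset (ℕ × ℕ)} (hS : S ⊆ board m n) {c : ℕ × ℕ}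
    (hc : c ∈ S) (k : c ≠ (m, n)) : c ∈ bite S (m, n) := by
  have := hS hc
  simp only [board, Finset.mem_erase, Finset.mem_product, Finset.mem_range] at this
  exact Finset.mem_filter.2 ⟨hc, fun h => k (Prod.ext (by simp only at h ⊢; omega)
    (by simp only at h ⊢; omega))⟩

theorem code_eq (m n : ℕ) (S : Finset (ℕ × ℕ)) (t : ℕ → ℕ → Bool)
    (h : ∀ i j, t i j = decide ((i, j) ∈ S)) :
    (List.replicate m true ++ List.replicate n false, (List.range (m + 1)).flatMap fun i =>
      (List.range (n + 1)).map fun j => t i j) = code m n S := by simp only [code, h]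

theorem hard {L : List Bool → Bool} (hL : L ∈ PSPACE) :
    ∃ f, LogspaceComputable f ∧ ∀ x, ∃ m n S, f x = N487b59b3.bitEncode (code m n S) ∧
      S ⊆ board m n ∧ (m, n) ∈ S ∧ Out true S ∧
      ∀ c ∈ S, Out false (bite S c) → (L x = true ↔ c ≠ (m, n)) := by
  obtain ⟨g, F, hF⟩ := exists_fam_of_PSPACE hL
  let cf : List Bool → ℕ → ℕ → List Bool × List Bool := fun x N H =>
    (List.replicate (2 * N + 1) true ++ List.replicate (N + N * H) false,
      (List.range (2 * N + 1 + 1)).flatMap fun i => (List.range (N + N * H + 1)).map fun j =>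
        Sv.tb F x N H i j)
  have l1 : LS fun x => cf x (Sv.N F x) (Sv.B F x ^ 5) := by
    simp only [cf]
    fun_prop
  refine ⟨fun x => N487b59b3.bitEncode (cf x (Sv.N F x) (Sv.B F x ^ 5)),
    LS.logspaceComputable ?_, fun x => ?_⟩
  · have : LS fun x => dl (N487b59b3.bitEncode (cf x (Sv.N F x) (Sv.B F x ^ 5)).1) ++
        N487b59b3.bitEncode (cf x (Sv.N F x) (Sv.B F x ^ 5)).2 :=
      LS.append (LS.listDl (LS.bitEncodeList l1.fst)) (LS.bitEncodeList l1.snd)
    have e : ∀ p : List Bool × List Bool, dl (N487b59b3.bitEncode p.1) ++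
      N487b59b3.bitEncode p.2 = N487b59b3.bitEncode p := fun p => (bitEncode_pair p.1 p.2).symm
    exact this.congr fun x => e _
  have O := Sv.ok F x
  have G := O.start
  obtain ⟨S, s1, s2, s3⟩ := top_spec (N := Sv.N F x) (H := Sv.B F x ^ 5)
    (Nat.zero_lt_of_lt O.Sg_lt) fun p k => (G.hp_lt O k).le
  have s4 := (s1 _).2 (.inl rfl)
  have m := O.main (Sv.T F x - 1) (Nat.add_sub_cancel' O.hT) G
  refine ⟨_, _, S, ?_, s2, s4, ?_⟩
  · refine congrArg N487b59b3.bitEncode (code_eq _ _ S _ fun i j => ?_)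
    rw [Sv.tb, decide_eq_decide]
    have e : ∀ p, hp ((Sv.par F x).walk fun _ => (Sv.par F x).s0) p =
        Sv.wk F x p ^^^ Sv.wk F x (p + 1) := fun p => by
      simp only [hp, Par.walk, Sv.wk]
      rw [Nat.xor_comm (Par.wk _ (p + 1)), Nat.xor_assoc, Nat.xor_xor_cancel_left]
    simp only [s1, Cell, Mem, mem_full, Prod.mk.injEq, e]
  · by_cases h : L x = true
    · have h1 := m.1 (Sv.accept ((hF x).1 h)) _ s3
      refine ⟨?_, fun c _ k => iff_of_true h fun e => not_both h1 (e ▸ k)⟩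
      cases h1 with
      | win _ c a b =>
        have a' := Finset.mem_of_mem_filter _ a
        exact .win _ c a' (bite_top s2 a' ▸ b)
    · have h1 := m.2 (Sv.reject fun k => h ((hF x).2 k)) _ s3
      refine ⟨.win _ _ s4 h1, fun c a k => iff_of_false h fun e => ?_⟩
      cases h1 with
      | lose _ b => exact not_both (b c (mem_bite_top s2 a e)) ((bite_top s2 a).symm ▸ k)

end Pool.Agent.Chomp.PS
end
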